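import Pool.Agent.helper2.L9.AtT

/-!
# Components without slack: even cycle, double edge, four free slots, or a triangle
-/

set_option linter.unusedSimpArgs false

namespace Helper42.L9

open MvPolynomial Finset

variable {V : Type*} {M : Multiset (Sym2 V)}

/-- slack, an even cycle or a double edge in the component of `v` -/
def EC (M : Multiset (Sym2 V)) (c : V → ℕ) (v : V) : Prop :=
  (∃ w, Reach M v w ∧ dg M w ≤ c w) ∨ (∃ a l, IsCyc M a l ∧ Odd l.length ∧ Reach M v a) ∨
    (∃ a b, Reach M v a ∧ ({s(a, b), s(a, b)} : Multiset (Sym2 V)) ≤ M)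

/-- the component of `v` in `outt A M` is not touched by `A`, or has slack -/
theorem outt_comp {c : V → ℕ} (hc : ∀ v, dg M v ≤ c v + 1) (A : Finset V) {v : V}
    (hv : dg (outt A M) v ≠ 0) :
    (∃ w, Reach (outt A M) v w ∧ dg (outt A M) w ≤ c w) ∨
      ((∀ w, Reach M v w → Reach (outt A M) v w) ∧
        (∀ w, Reach M v w → w ∉ A) ∧ (∀ w, Reach M v w → dg (outt A M) w = dg M w)) := by
  classical
  by_cases h1 : ∃ w, Reach (outt A M) v w ∧ ∃ x ∈ A, s(w, x) ∈ M
  · obtain ⟨w, hw, x, hx, hwx⟩ := h1
    left
    refine ⟨w, hw, ?_⟩
    have h2 := dg_outt_one hx hwx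
    have h3 := hc w
    omega
  · push Not at h1
    right
    have hvA : v ∉ A := fun hh => hv (dg_outt_mem hh)
    have hout : ∀ w, Reach (outt A M) v w → w ∉ A := by
      intro w hw
      rcases Relation.ReflTransGen.cases_tail hw with rfl | ⟨u, _, huw⟩
      · exact hvA
      · intro hh
        exact (mem_outt.mp huw).2 w (Sym2.mem_mk_right _ _) hh
    have hedge : ∀ w y, Reach (outt A M) v w → s(w, y) ∈ M → s(w, y) ∈ outt A M := by
      intro w y hw hwy
      rw [mem_outt]
      refine ⟨hwy, fun u hu => ?_⟩
      rw [Sym2.mem_iff] at hu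
      rcases hu with rfl | rfl
      · exact hout _ hw
      · exact fun hh => h1 w hw _ hh hwy
    have hback : ∀ w, Reach M v w → Reach (outt A M) v w := by
      intro w hw
      induction hw with
      | refl => exact Relation.ReflTransGen.refl
      | tail _ hbc ih => exact ih.tail (hedge _ _ ih hbc)
    refine ⟨hback, fun w hw => hout w (hback w hw), fun w hw => ?_⟩
    have hw' := hback w hw
    unfold outt dg
    rw [Multiset.countP_filter]
    apply Multiset.countP_congr rfl
    intro e he
    apply propext
    constructor
    · exact fun hh => hh.1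
    · intro hwe
      refine ⟨hwe, ?_⟩
      obtain ⟨y, rfl⟩ := hwe
      exact (mem_outt.mp (hedge w y hw' he)).2

theorem Reach.symm {v w : V} (h : Reach M v w) : Reach M w v := by
  induction h with
  | refl => exact Relation.ReflTransGen.refl
  | tail _ hbc ih =>
    exact Relation.ReflTransGen.head (by rw [Sym2.eq_swap]; exact hbc) ih

theorem Reach.trans' {u v w : V} (h : Reach M u v) (h' : Reach M v w) : Reach M u w :=
  Relation.ReflTransGen.trans h h'

/-- all vertices of a cycle are reachable -/
theorem IsCyc.reach {a : V} {l : List V} (h : IsCyc M a l) : ∀ w ∈ a :: l, Reach M a w := by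
  intro w hw
  have h1 := chain_of_path.mp h.sub
  exact chain_reach h1 w (by
    rw [List.mem_cons] at hw ⊢
    rcases hw with hw | hw
    · exact Or.inl hw
    · exact Or.inr (List.mem_append_left _ hw))

theorem EC.outt {c : V → ℕ} (hc : ∀ v, dg M v ≤ c v + 1) (A : Finset V) {v : V}
    (hv : dg (outt A M) v ≠ 0) (h : EC M c v) : EC (outt A M) c v := by
  classical
  rcases outt_comp hc A hv with h1 | ⟨h1, h2, h3⟩
  · exact Or.inl h1
  · rcases h with ⟨w, hw, hwc⟩ | ⟨a, l, hcyc, hodd, ha⟩ | ⟨a, b, ha, hab⟩
    · exact Or.inl ⟨w, h1 w hw, by rw [h3 w hw]; exact hwc⟩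
    · refine Or.inr (Or.inl ⟨a, l, ⟨hcyc.nodup, hcyc.len, fun e he => ?_⟩, hodd, h1 a ha⟩)
      rw [mem_outt]
      refine ⟨hcyc.sub e he, fun u hu => h2 u ?_⟩
      exact ha.trans' (hcyc.reach u (mem_cyc he hu))
    · refine Or.inr (Or.inr ⟨a, b, h1 a ha, ?_⟩)
      have hmem : s(a, b) ∈ M := Multiset.mem_of_le hab (by simp)
      have hb : Reach M v b := Relation.ReflTransGen.tail ha hmem
      have : Multiset.filter (fun e => ∀ v ∈ e, v ∉ A) ({s(a, b), s(a, b)} : Multiset (Sym2 V)) =
          {s(a, b), s(a, b)} := by
        rw [Multiset.filter_eq_self]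
        intro e he
        simp only [Multiset.insert_eq_cons, Multiset.mem_cons, Multiset.mem_singleton,
          or_self] at he
        subst he
        intro u hu
        rw [Sym2.mem_iff] at hu
        rcases hu with rfl | rfl
        · exact h2 _ ha
        · exact h2 _ hb
      rw [← this]
      exact Multiset.filter_le_filter _ hab

theorem at_gen_aux {c : V → ℕ} : ∀ (n : ℕ) (M : Multiset (Sym2 V)), Multiset.card M ≤ n →
    (∀ e ∈ M, ¬ e.IsDiag) → (∀ v, dg M v ≤ 3) → (∀ v, dg M v ≤ c v + 1) → NoK4 M →
    (∀ v, dg M v ≠ 0 → EC M c v) → AT M c := by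
  classical
  intro n
  induction n with
  | zero =>
    intro M hn _ _ _ _ _
    have : M = 0 := Multiset.card_eq_zero.mp (by omega)
    subst this
    exact at_zero _
  | succ n ih =>
    intro M hn hl hdeg hc hK hT
    by_cases h0 : M = 0
    · subst h0; exact at_zero _
    -- recursion on the outer part
    have rec_ : ∀ A : Finset V, Multiset.card (outt A M) < Multiset.card M →
        AT (outt A M) c := by
      intro A hA
      have hle := outt_le A M
      exact ih (outt A M) (by omega) (fun e he => hl e (Multiset.mem_of_le hle he))
        (fun v => (dg_le_of_le hle v).trans (hdeg v))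
        (fun v => (dg_le_of_le hle v).trans (hc v)) (hK.of_le hle)
        (fun v hv => (hT v (fun h0 => hv (by
          have := dg_le_of_le hle v; omega))).outt hc A hv)
    have hlt : ∀ (A : Finset V) (e : Sym2 V), e ∈ M → (∃ v ∈ e, v ∈ A) →
        Multiset.card (outt A M) < Multiset.card M := by
      intro A e he ⟨v, hve, hvA⟩
      refine lt_of_le_of_ne (Multiset.card_le_card (outt_le A M)) fun hh => ?_
      have := Multiset.eq_of_le_of_card_le (outt_le A M) hh.ge
      have h1 : e ∈ outt A M := by rw [this]; exact he
      unfold outt at h1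
      exact (Multiset.mem_filter.mp h1).2 v hve hvA
    by_cases hlow : ∃ v, dg M v ≠ 0 ∧ dg M v ≤ c v
    · obtain ⟨v, hv0, hv2⟩ := hlow
      have hex : ∃ e ∈ M, v ∈ e := by
        by_contra hcon
        push Not at hcon
        apply hv0
        unfold dg
        rw [Multiset.countP_eq_zero]
        exact hcon
      obtain ⟨e, he, hve⟩ := hex
      exact AT.peel v M _ hl hv2 (rec_ {v} (hlt {v} e he ⟨v, hve, Finset.mem_singleton_self v⟩))
    · have htight : ∀ v, dg M v = 0 ∨ dg M v = c v + 1 := by
        intro v
        by_contra hcon
        push Not at hcon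
        have h1 : c v < dg M v := by
          by_contra h2
          exact hlow ⟨v, hcon.1, by omega⟩
        have h2 := hc v
        omega
      by_cases hM : M.Nodup
      · have hcyc : ∃ a l, IsCyc M a l ∧ Odd l.length := by
          obtain ⟨e, he⟩ := Multiset.exists_mem_of_ne_zero h0
          induction e with
          | _ v y =>
            have hv := (dg_pos he).1
            rcases hT v hv with ⟨w, hw, hwc⟩ | ⟨a, l, h1, h2, _⟩ | ⟨a, b, _, hab⟩
            · exfalso
              apply hlow
              refine ⟨w, ?_, hwc⟩
              rcases Relation.ReflTransGen.cases_tail hw with rfl | ⟨u, _, huw⟩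
              · exact hv
              · exact (dg_pos huw).2
            · exact ⟨a, l, h1, h2⟩
            · exfalso
              have := Multiset.nodup_of_le hab hM
              simp at this
        have hmin : ∃ a l, MinCyc M a l := by
          have hP : ∃ n, ∃ a l, IsCyc M a l ∧ Odd l.length ∧ l.length = n := by
            obtain ⟨a, l, h1, h2⟩ := hcyc
            exact ⟨_, a, l, h1, h2, rfl⟩
          obtain ⟨a, l, h1, h2, h3'⟩ := Nat.find_spec hP
          refine ⟨a, l, h1, h2, fun a' l' h1' h2' => ?_⟩
          rw [h3']
          exact Nat.find_min' hP ⟨a', l', h1', h2', rfl⟩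
        obtain ⟨a, l, hmc⟩ := hmin
        obtain ⟨A, c₁, hne, hAT, hcA⟩ := start_of_minCyc hM hl hdeg hK hmc
        obtain ⟨e, he⟩ := Multiset.exists_mem_of_ne_zero hne
        unfold inn at he
        rw [Multiset.mem_filter] at he
        refine AT.block' A M c₁ _ hAT
          (rec_ A (hlt A e he.1 ⟨_, (out_mem e).1, he.2 _ (out_mem e).1⟩)) ?_
        intro v hv
        have h4 := hcA v hv
        rcases htight v with h | h <;> omega
      · -- a double edge
        rw [Multiset.nodup_iff_count_le_one] at hM
        push Not at hM
        obtain ⟨e, he⟩ := hM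
        induction e with
        | _ a b =>
          have hab' : s(a, b) ∈ M := Multiset.count_pos.mp (by omega)
          have hab : a ≠ b := by
            have := hl _ hab'
            rw [Sym2.mk_isDiag_iff] at this
            exact this
          have hall : ∀ e ∈ inn {a, b} M, e = s(a, b) := by
            intro e he
            unfold inn at he
            rw [Multiset.mem_filter] at he
            have h1 := he.2 _ (out_mem e).1
            have h2 := he.2 _ (out_mem e).2
            have h3 : s(e.out.1, e.out.2) = e := Quot.out_eq e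
            have h4 : e.out.1 ≠ e.out.2 := by
              intro hh
              apply hl e he.1
              rw [← h3, Sym2.mk_isDiag_iff]; exact hh
            rw [Finset.mem_insert, Finset.mem_singleton] at h1 h2
            rw [← h3, Sym2.eq_iff]
            rcases h1 with h1 | h1 <;> rcases h2 with h2 | h2
            · exact absurd (h1.trans h2.symm) h4
            · exact Or.inl ⟨h1, h2⟩
            · exact Or.inr ⟨h1, h2⟩
            · exact absurd (h1.trans h2.symm) h4
          have hrep := Multiset.eq_replicate_of_mem hall
          set k := Multiset.card (inn {a, b} M) with hk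
          have hkc : k = Multiset.count s(a, b) M := by
            have h1 : Multiset.count s(a, b) (inn {a, b} M) = Multiset.count s(a, b) M := by
              unfold inn
              rw [Multiset.count_filter_of_pos]
              intro v hv
              rw [Sym2.mem_iff] at hv
              rw [Finset.mem_insert, Finset.mem_singleton]
              exact hv
            rw [← h1]
            conv_rhs => rw [hrep]
            rw [Multiset.count_replicate_self]
          have hdgk : ∀ v, v = a ∨ v = b → dg (inn {a, b} M) v = k := by
            intro v hv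
            unfold dg
            rw [Multiset.countP_eq_card.mpr]
            intro e he
            rw [hall e he, Sym2.mem_iff]
            exact hv
          have hk3 : k ≤ 3 := by
            rw [← hdgk a (Or.inl rfl)]
            refine le_trans (dg_le_of_le ?_ a) (hdeg a)
            unfold inn
            exact Multiset.filter_le _ _
          have hrecA := rec_ {a, b} (hlt {a, b} s(a, b) hab'
            ⟨a, Sym2.mem_mk_left _ _, Finset.mem_insert_self _ _⟩)
          have hcr : ∀ v ∈ ({a, b} : Finset V), dg (crs {a, b} M) v + k ≤ c v + 1 := by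
            intro v hv
            rw [Finset.mem_insert, Finset.mem_singleton] at hv
            have h1 := dg_split {a, b} M v
            rw [hdgk v hv] at h1
            rcases htight v with h | h <;> omega
          have hk23 : k = 2 ∨ k = 3 := by omega
          rcases hk23 with hk2 | hk3'
          · refine AT.block' {a, b} M (fun _ => 1) _ ?_ hrecA ?_
            · rw [hrep, hk2]
              exact at_double hab le_rfl le_rfl
            · intro v hv
              have := hcr v hv
              show 1 + dg (crs {a, b} M) v ≤ c v
              omega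
          · refine AT.block' {a, b} M (fun _ => 2) _ ?_ hrecA ?_
            · rw [hrep, hk3']
              exact at_triple hab le_rfl (by norm_num)
            · intro v hv
              have := hcr v hv
              show 2 + dg (crs {a, b} M) v ≤ c v
              omega

/-- a subcubic multigraph with caps `≥ dg - 1`, no `K_4`, and slack, an even cycle or a double edge
in every component is Alon-Tarsi -/
theorem at_gen (c : V → ℕ) (M : Multiset (Sym2 V)) (hl : ∀ e ∈ M, ¬ e.IsDiag)
    (h3 : ∀ v, dg M v ≤ 3) (hc : ∀ v, dg M v ≤ c v + 1) (hK : NoK4 M)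
    (hT : ∀ v, dg M v ≠ 0 → (∃ w, Reach M v w ∧ dg M w ≤ c w) ∨
      (∃ a l, IsCyc M a l ∧ Odd l.length ∧ Reach M v a) ∨
      (∃ a b, Reach M v a ∧ ({s(a, b), s(a, b)} : Multiset (Sym2 V)) ≤ M)) : AT M c :=
  at_gen_aux _ M le_rfl hl h3 hc hK hT

/-- if it is not Alon-Tarsi: a tight simple component without even cycle -/
theorem tight_of_not_at (c : V → ℕ) (M : Multiset (Sym2 V)) (hl : ∀ e ∈ M, ¬ e.IsDiag)
    (h3 : ∀ v, dg M v ≤ 3) (hc : ∀ v, dg M v ≤ c v + 1) (hK : NoK4 M) (hn : ¬ AT M c) :
    ∃ v, dg M v ≠ 0 ∧ (∀ w, Reach M v w → dg M w = c w + 1) ∧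
      (∀ a l, IsCyc M a l → Reach M v a → ¬ Odd l.length) ∧
      (∀ a b, Reach M v a → ¬ ({s(a, b), s(a, b)} : Multiset (Sym2 V)) ≤ M) := by
  by_contra hcon
  push Not at hcon
  apply hn
  apply at_gen c M hl h3 hc hK
  intro v hv
  by_contra hh
  push Not at hh
  obtain ⟨h1, h2, h4⟩ := hh
  obtain ⟨a, b, hab, hle⟩ := hcon v hv (fun w hw => by
    have := h1 w hw; have := hc w; omega) (fun a l hal ha ho => h2 a l hal ho ha)
  exact h4 a b hab hle

/-! ### four free slots or a triangle -/

/-- rotation at the end of a longest path -/
theorem rot (hM : M.Nodup) (hl : ∀ e ∈ M, ¬ e.IsDiag)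
    (hno : ¬ ∃ a l, IsCyc M a l ∧ Odd l.length) {x : V} {R : List V} (hn : (x :: R).Nodup)
    (hs : List.IsChain (fun a b => s(a, b) ∈ M) (x :: R)) (h2 : 2 ≤ (x :: R).length)
    (hmax : ∀ L' : List V, L'.Nodup → List.IsChain (fun a b => s(a, b) ∈ M) L' →
        L'.length ≤ (x :: R).length) (hx : 2 ≤ dg M x) :
    ∃ t z b r, x :: R = (x :: t) ++ z :: b :: r ∧ s(x, b) ∈ M ∧ dg M z ≤ 2 := by
  classical
  obtain ⟨hx2, hin⟩ := end_deg hM hl hno hn hs h2 hmax
  have hsym : (fun a b : V => s(a, b) ∈ M) = (fun a b => s(b, a) ∈ M) := by
    funext a b; rw [Sym2.eq_swap]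
  obtain ⟨p, l', rfl⟩ : ∃ p l', R = p :: l' := by
    match R, h2 with
    | [], h2 => simp at h2
    | p :: l', _ => exact ⟨p, l', rfl⟩
  obtain ⟨b, hbp, hb⟩ := two_nbrs hM (v := x) hx p
  obtain ⟨t, r, ht⟩ := List.append_of_mem (hin b hb)
  have ht0 : t ≠ [] := by
    rintro rfl
    rw [List.nil_append] at ht
    exact hbp (List.cons.inj ht).1.symm
  obtain ⟨t', z, rfl⟩ := (List.eq_nil_or_concat t).resolve_left ht0
  rw [List.concat_eq_append] at ht
  have hL : x :: p :: l' = (x :: (t' ++ [z])) ++ b :: r := by rw [ht]; simp
  have hrot : (x :: (t' ++ [z])).reverse ++ b :: r = z :: ((x :: t').reverse ++ b :: r) := by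
    simp
  have hperm : ((x :: (t' ++ [z])).reverse ++ b :: r).Perm (x :: p :: l') := by
    rw [hL]
    exact (List.reverse_perm _).append_right _
  refine ⟨t', z, b, r, by rw [hL]; simp, hb, ?_⟩
  refine (end_deg hM hl hno (x := z) (R := (x :: t').reverse ++ b :: r) ?_ ?_ ?_ ?_).1
  · rw [← hrot]
    exact hperm.nodup_iff.mpr hn
  · rw [← hrot, List.isChain_append]
    rw [hL, List.isChain_append] at hs
    refine ⟨?_, hs.2.1, ?_⟩
    · rw [List.isChain_reverse, ← hsym]; exact hs.1
    · intro u hu w hw
      simp only [List.reverse_cons, List.getLast?_append, List.getLast?_singleton,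
        Option.some_or, Option.mem_def, Option.some.injEq, List.head?_cons] at hu hw
      rw [← hu, ← hw]; exact hb
  · rw [← hrot, hperm.length_eq]; exact h2
  · rw [← hrot, hperm.length_eq]; exact hmax

/-- parity of the cycle closed by a chord at the end -/
theorem rot_parity (hno : ¬ ∃ a l, IsCyc M a l ∧ Odd l.length) {x z b : V} {t r : List V}
    (hn : ((x :: t) ++ z :: b :: r).Nodup)
    (hs : List.IsChain (fun a b => s(a, b) ∈ M) ((x :: t) ++ z :: b :: r))
    (hb : s(x, b) ∈ M) : Even t.length := by
  by_contra hev
  rw [Nat.not_even_iff_odd] at hev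
  apply hno
  refine ⟨x, t ++ [z, b], ⟨?_, ?_, ?_⟩, ?_⟩
  · have e1 : (x :: t) ++ z :: b :: r = (x :: (t ++ [z, b])) ++ r := by simp
    rw [e1] at hn
    exact (List.nodup_append.mp hn).1
  · simp
  · rw [chain_of_path]
    have e1 : (x :: t) ++ z :: b :: r = (x :: (t ++ [z, b])) ++ r := by simp
    rw [e1] at hs
    have h1 := (List.isChain_append.mp hs).1
    have e2 : x :: ((t ++ [z, b]) ++ [x]) = (x :: (t ++ [z, b])) ++ [x] := by simp
    rw [e2, List.isChain_append]
    refine ⟨h1, List.isChain_singleton _, ?_⟩
    intro u hu w hw
    have hu' : b = u := by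
      have e3 : x :: (t ++ [z, b]) = (x :: (t ++ [z])) ++ [b] := by simp
      rw [e3, List.getLast?_append] at hu
      simpa using hu
    have hw' : x = w := by simpa using hw
    rw [← hu', ← hw', Sym2.eq_swap]
    exact hb
  · rw [List.length_append]
    simp only [List.length_cons, List.length_nil]
    rw [Nat.odd_iff] at hev ⊢
    omega

theorem exists_slots4 (hM : M.Nodup) (hl : ∀ e ∈ M, ¬ e.IsDiag) (hne : M ≠ 0)
    (hno : ¬ ∃ a l, IsCyc M a l ∧ Odd l.length) :
    ∃ v, dg M v ≠ 0 ∧ ((∃ A : Finset V, (∀ a ∈ A, Reach M v a) ∧
      4 ≤ ∑ a ∈ A, (3 - dg M a)) ∨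
      (∃ z d, s(v, z) ∈ M ∧ s(z, d) ∈ M ∧ s(v, d) ∈ M ∧ v ≠ z ∧ z ≠ d ∧ v ≠ d ∧
        dg M v = 2 ∧ dg M z = 2 ∧ dg M d = 2)) := by
  classical
  obtain ⟨L, hn, hs, h2, hmax⟩ := exists_longest hl hne
  obtain ⟨x, l, d, rfl⟩ := list_split_last h2
  obtain ⟨hx2, hin⟩ := end_deg hM hl hno hn hs h2 hmax
  have hsym : (fun a b : V => s(a, b) ∈ M) = (fun a b => s(b, a) ∈ M) := by
    funext a b; rw [Sym2.eq_swap]
  have hxd : x ≠ d := by
    rintro rfl
    exact (List.nodup_cons.mp hn).1 (by simp)
  -- the other end
  have hrev : (x :: (l ++ [d])).reverse = d :: (x :: l).reverse := by simp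
  have rn : (d :: (x :: l).reverse).Nodup := by
    rw [← hrev, List.nodup_reverse]; exact hn
  have rs : List.IsChain (fun a b => s(a, b) ∈ M) (d :: (x :: l).reverse) := by
    rw [← hrev, List.isChain_reverse, ← hsym]; exact hs
  have r2 : 2 ≤ (d :: (x :: l).reverse).length := by
    rw [← hrev, List.length_reverse]; exact h2
  have rmax : ∀ L' : List V, L'.Nodup → List.IsChain (fun a b => s(a, b) ∈ M) L' →
      L'.length ≤ (d :: (x :: l).reverse).length := by
    rw [← hrev, List.length_reverse]; exact hmax
  have hd2 : dg M d ≤ 2 := (end_deg hM hl hno rn rs r2 rmax).1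
  have hreach := chain_reach hs
  have hx0 : dg M x ≠ 0 := by
    match l, hs with
    | [], hs =>
      simp only [List.nil_append, List.isChain_cons_cons] at hs
      exact (dg_pos hs.1).1
    | b :: l, hs =>
      rw [List.cons_append, List.isChain_cons_cons] at hs
      exact (dg_pos hs.1).1
  refine ⟨x, hx0, ?_⟩
  -- data at the two ends
  have hX : 2 ≤ dg M x → ∃ t z b r, x :: (l ++ [d]) = (x :: t) ++ z :: b :: r ∧ s(x, b) ∈ M ∧
      dg M z ≤ 2 := rot hM hl hno hn hs h2 hmax
  have hD : 2 ≤ dg M d → ∃ t z b r, d :: (x :: l).reverse = (d :: t) ++ z :: b :: r ∧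
      s(d, b) ∈ M ∧ dg M z ≤ 2 := rot hM hl hno rn rs r2 rmax
  have zX : ∀ t z b r, x :: (l ++ [d]) = (x :: t) ++ z :: b :: r → z ≠ x ∧ z ≠ d ∧
      Reach M x z := by
    intro t z b r hL
    refine ⟨?_, ?_, hreach z (by rw [hL]; simp)⟩
    · rintro rfl
      rw [hL] at hn
      exact (List.nodup_cons.mp hn).1 (by simp)
    · rintro rfl
      have h1 : (x :: (l ++ [z])).getLast? = some z := by
        rw [← List.cons_append, List.getLast?_append]; simp
      rw [hL] at h1 hn
      have h3 : z ∈ b :: r := by
        rw [List.getLast?_append] at h1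
        have h4 : (z :: b :: r).getLast? = (b :: r).getLast? := by simp [List.getLast?_cons_cons]
        rw [h4] at h1
        have h5 : (b :: r).getLast? = some z := by
          rcases hh : (b :: r).getLast? with _ | y
          · simp at hh
          · rw [hh] at h1; simpa using h1
        exact List.mem_of_getLast? h5
      have h4 := (List.nodup_append.mp hn).2.1
      exact (List.nodup_cons.mp h4).1 h3
  have zD : ∀ t z b r, d :: (x :: l).reverse = (d :: t) ++ z :: b :: r → z ≠ x ∧ z ≠ d ∧
      Reach M x z := by
    intro t z b r hL
    have hz : z ∈ x :: (l ++ [d]) := by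
      rw [← List.mem_reverse, hrev, hL]; simp
    refine ⟨?_, ?_, hreach z hz⟩
    · rintro rfl
      have h1 : (d :: (z :: l).reverse).getLast? = some z := by
        rw [List.reverse_cons, ← List.cons_append, List.getLast?_append]; simp
      rw [hL] at h1 rn
      have h3 : z ∈ b :: r := by
        rw [List.getLast?_append] at h1
        have h4 : (z :: b :: r).getLast? = (b :: r).getLast? := by simp [List.getLast?_cons_cons]
        rw [h4] at h1
        have h5 : (b :: r).getLast? = some z := by
          rcases hh : (b :: r).getLast? with _ | y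
          · simp at hh
          · rw [hh] at h1; simpa using h1
        exact List.mem_of_getLast? h5
      have h4 := (List.nodup_append.mp rn).2.1
      exact (List.nodup_cons.mp h4).1 h3
    · rintro rfl
      rw [hL] at rn
      exact (List.nodup_cons.mp rn).1 (by simp)
  have hdreach : Reach M x d := hreach d (by simp)
  by_cases hx1 : dg M x ≤ 1
  · left
    by_cases hd1 : dg M d ≤ 1
    · refine ⟨{x, d}, ?_, ?_⟩
      · intro a ha
        rw [Finset.mem_insert, Finset.mem_singleton] at ha
        rcases ha with rfl | rfl
        · exact Relation.ReflTransGen.refl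
        · exact hdreach
      · rw [Finset.sum_pair hxd]; omega
    · obtain ⟨t, z, b, r, hL, hb, hz⟩ := hD (by omega)
      obtain ⟨z1, z2, z3⟩ := zD t z b r hL
      refine ⟨{x, z, d}, ?_, ?_⟩
      · intro a ha
        simp only [Finset.mem_insert, Finset.mem_singleton] at ha
        rcases ha with rfl | rfl | rfl
        · exact Relation.ReflTransGen.refl
        · exact z3
        · exact hdreach
      · rw [Finset.sum_insert (by simp [z1.symm, hxd]), Finset.sum_pair z2]
        omega
  · obtain ⟨t, z, b, r, hL, hb, hz⟩ := hX (by omega)
    obtain ⟨z1, z2, z3⟩ := zX t z b r hL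
    by_cases hd1 : dg M d ≤ 1
    · left
      refine ⟨{x, z, d}, ?_, ?_⟩
      · intro a ha
        simp only [Finset.mem_insert, Finset.mem_singleton] at ha
        rcases ha with rfl | rfl | rfl
        · exact Relation.ReflTransGen.refl
        · exact z3
        · exact hdreach
      · rw [Finset.sum_insert (by simp [z1.symm, hxd]), Finset.sum_pair z2]
        omega
    · obtain ⟨t', z', b', r', hL', hb', hz'⟩ := hD (by omega)
      obtain ⟨z1', z2', z3'⟩ := zD t' z' b' r' hL'
      by_cases hzz : z = z'
      · subst hzz
        right
        -- the two splittings of the path at `z`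
        have hL2 : x :: (l ++ [d]) = (r'.reverse ++ [b']) ++ z :: (t'.reverse ++ [d]) := by
          have := congrArg List.reverse hL'
          rw [← hrev, List.reverse_reverse] at this
          rw [this]; simp
        have hsplit : x :: t = r'.reverse ++ [b'] ∧ b :: r = t'.reverse ++ [d] := by
          rw [hL] at hL2 hn
          have hnd := List.nodup_append.mp hn
          have hz1 : z ∉ x :: t := fun hh => hnd.2.2 z hh z (by simp) rfl
          have hz2 : z ∉ b :: r := (List.nodup_cons.mp hnd.2.1).1
          rcases List.append_eq_append_iff.mp hL2 with ⟨a, ha1, ha2⟩ | ⟨a, ha1, ha2⟩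
          · match a, ha1, ha2 with
            | [], ha1, ha2 =>
              rw [List.nil_append] at ha2
              rw [List.append_nil] at ha1
              exact ⟨ha1.symm, (List.cons.inj ha2).2⟩
            | y :: a, ha1, ha2 =>
              exfalso
              rw [List.cons_append] at ha2
              apply hz2
              rw [(List.cons.inj ha2).2]; simp
          · match a, ha1, ha2 with
            | [], ha1, ha2 =>
              rw [List.nil_append] at ha2
              rw [List.append_nil] at ha1
              exact ⟨ha1, (List.cons.inj ha2).2.symm⟩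
            | y :: a, ha1, ha2 =>
              exfalso
              rw [List.cons_append] at ha2
              apply hz1
              rw [ha1, (List.cons.inj ha2).1]; simp
        obtain ⟨hs1, hs2⟩ := hsplit
        have p1 : Even t.length := by
          refine rot_parity (z := z) (r := r) hno ?_ ?_ hb
          · rw [← hL]; exact hn
          · rw [← hL]; exact hs
        have p2 : Even t'.length := by
          refine rot_parity (z := z) (r := r') hno ?_ ?_ hb'
          · rw [← hL']; exact rn
          · rw [← hL']; exact rs
        have hlen2 : (b :: r).length = t'.length + 1 := by rw [hs2]; simp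
        by_cases hsmall : t = [] ∧ r = []
        · obtain ⟨rfl, rfl⟩ := hsmall
          have hbd : b = d := by
            have : t' = [] := by
              simp only [List.length_cons, List.length_nil] at hlen2
              exact List.length_eq_zero_iff.mp (by omega)
            rw [this] at hs2
            simpa using hs2
          subst hbd
          rw [hL] at hs
          simp only [List.cons_append, List.nil_append, List.isChain_cons_cons] at hs
          have hzx : s(z, x) ∈ M := by rw [Sym2.eq_swap]; exact hs.1
          have hz2' : 2 ≤ dg M z := by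
            have hle := nodup_pair_le (a := s(z, x)) (b := s(z, b)) (M := M) (by
              intro hh
              rw [Sym2.eq_iff] at hh
              rcases hh with ⟨_, hh⟩ | ⟨hh, _⟩
              · exact hxd hh
              · exact z2 hh) hzx hs.2.1
            have := dg_le_of_le hle z
            have e1 : dg ({s(z, x), s(z, b)} : Multiset (Sym2 V)) z = 2 := by
              rw [Multiset.insert_eq_cons, ← Multiset.cons_zero, dg_cons_ite, dg_cons_ite]
              simp [dg]
            omega
          exact ⟨z, b, hs.1, hs.2.1, hb, z1.symm, z2, hxd, by omega, by omega, by omega⟩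
        · exfalso
          apply hno
          have hlast : (x :: t).getLast? = some b' := by
            rw [hs1, List.getLast?_append]; simp
          have hhead : (b :: r).reverse.head? = some d := by rw [hs2]; simp
          have hcy : List.IsChain (fun a b => s(a, b) ∈ M)
              (x :: ((t ++ (b :: r).reverse) ++ [x])) := by
            have e1 : x :: ((t ++ (b :: r).reverse) ++ [x]) =
                (x :: t) ++ ((b :: r).reverse ++ [x]) := by simp
            rw [e1, List.isChain_append]
            rw [hL, List.isChain_append] at hs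
            have hbr : List.IsChain (fun a b => s(a, b) ∈ M) (b :: r) :=
              (List.isChain_cons_cons.mp hs.2.1).2
            refine ⟨hs.1, ?_, ?_⟩
            · rw [List.isChain_append]
              refine ⟨?_, List.isChain_singleton _, ?_⟩
              · rw [List.isChain_reverse, ← hsym]; exact hbr
              · intro u hu w hw
                have hu' : b = u := by simpa using hu
                have hw' : x = w := by simpa using hw
                rw [← hu', ← hw', Sym2.eq_swap]
                exact hb
            · intro u hu w hw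
              rw [hlast] at hu
              have hu' : b' = u := by simpa using hu
              have hw' : d = w := by
                rw [List.head?_append, hhead] at hw
                simpa using hw
              rw [← hu', ← hw', Sym2.eq_swap]
              exact hb'
          refine ⟨x, t ++ (b :: r).reverse, ⟨?_, ?_, chain_of_path.mpr hcy⟩, ?_⟩
          · rw [hL] at hn
            have h1 : ((x :: t) ++ (b :: r)).Nodup := by
              refine List.Sublist.nodup ?_ hn
              apply List.Sublist.append_left
              exact List.sublist_cons_self _ _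
            have h3 : ((x :: t) ++ (b :: r)).Perm (x :: (t ++ (b :: r).reverse)) := by
              rw [List.cons_append]
              exact ((List.reverse_perm (b :: r)).symm.append_left t).cons x
            exact h3.nodup_iff.mp h1
          · rw [List.length_append, List.length_reverse, List.length_cons]
            by_contra hlt
            push Not at hlt
            apply hsmall
            constructor <;> apply List.length_eq_zero_iff.mp <;> omega
          · rw [List.length_append, List.length_reverse, hlen2]
            rw [Nat.even_iff] at p1 p2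
            rw [Nat.odd_iff]
            omega
      · left
        refine ⟨{x, z, z', d}, ?_, ?_⟩
        · intro a ha
          simp only [Finset.mem_insert, Finset.mem_singleton] at ha
          rcases ha with rfl | rfl | rfl | rfl
          · exact Relation.ReflTransGen.refl
          · exact z3
          · exact z3'
          · exact hdreach
        · rw [Finset.sum_insert (by simp [z1.symm, z1'.symm, hxd]),
            Finset.sum_insert (by simp [hzz, z2]), Finset.sum_pair z2']
          omega

/-- the same for the component of a given vertex -/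
theorem slots4 (hM : M.Nodup) (hl : ∀ e ∈ M, ¬ e.IsDiag) {v : V} (hv : dg M v ≠ 0)
    (hno : ∀ a l, IsCyc M a l → Reach M v a → ¬ Odd l.length) :
    (∃ A : Finset V, (∀ a ∈ A, Reach M v a) ∧ 4 ≤ ∑ a ∈ A, (3 - dg M a)) ∨
      (∃ a b d, Reach M v a ∧ Reach M v b ∧ Reach M v d ∧ s(a, b) ∈ M ∧ s(b, d) ∈ M ∧
        s(a, d) ∈ M ∧ a ≠ b ∧ b ≠ d ∧ a ≠ d ∧ dg M a = 2 ∧ dg M b = 2 ∧ dg M d = 2) := by
  classical
  set N := M.filter (fun e => ∀ u ∈ e, Reach M v u) with hN
  have hle : N ≤ M := Multiset.filter_le _ _
  have hmem : ∀ a b, Reach M v a → s(a, b) ∈ M → s(a, b) ∈ N := by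
    intro a b ha hab
    rw [hN, Multiset.mem_filter]
    refine ⟨hab, fun u hu => ?_⟩
    rw [Sym2.mem_iff] at hu
    rcases hu with rfl | rfl
    · exact ha
    · exact Relation.ReflTransGen.tail ha hab
  have hdg : ∀ w, Reach M v w → dg N w = dg M w := by
    intro w hw
    rw [hN]
    unfold dg
    rw [Multiset.countP_filter]
    apply Multiset.countP_congr rfl
    intro e he
    apply propext
    constructor
    · exact fun hh => hh.1
    · intro hwe
      refine ⟨hwe, ?_⟩
      obtain ⟨y, rfl⟩ := hwe
      exact (Multiset.mem_filter.mp (hmem w y hw he)).2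
  have hreachN : ∀ u w, Reach N u w → Reach M v u → Reach M v w :=
    fun u w huw hu => hu.trans' (huw.mono hle)
  have hN0 : N ≠ 0 := by
    intro h0
    have := hdg v Relation.ReflTransGen.refl
    rw [h0] at this
    apply hv
    rw [← this]
    simp [dg]
  have hvert : ∀ w, dg N w ≠ 0 → Reach M v w := by
    intro w hw
    unfold dg at hw
    rw [Ne, Multiset.countP_eq_zero] at hw
    push Not at hw
    obtain ⟨e, he, hwe⟩ := hw
    rw [hN, Multiset.mem_filter] at he
    exact he.2 w hwe
  obtain ⟨x, hx, h⟩ := exists_slots4 (M := N) (Multiset.nodup_of_le hle hM)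
    (fun e he => hl e (Multiset.mem_of_le hle he)) hN0 (by
      rintro ⟨a, l, hc, ho⟩
      refine hno a l ⟨hc.nodup, hc.len, fun e he => Multiset.mem_of_le hle (hc.sub e he)⟩ ?_ ho
      have h1 : pathM a l a ≠ 0 := by
        intro h0
        have := congrArg Multiset.card h0
        rw [card_pathM] at this
        simp at this
      match l, hc with
      | [], hc => have := hc.len; simp at this
      | b :: l, hc =>
        have h2 := hc.sub s(a, b) (by simp)
        rw [hN, Multiset.mem_filter] at h2
        exact h2.2 a (Sym2.mem_mk_left _ _))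
  have hxv := hvert x hx
  rcases h with ⟨A, hA, hsum⟩ | ⟨z, d, h1, h2, h3, n1, n2, n3, d1, d2, d3⟩
  · left
    refine ⟨A, fun a ha => hreachN x a (hA a ha) hxv, ?_⟩
    refine le_trans hsum (le_of_eq (Finset.sum_congr rfl fun a ha => ?_))
    rw [hdg a (hreachN x a (hA a ha) hxv)]
  · right
    have hz : Reach M v z := Relation.ReflTransGen.tail hxv (Multiset.mem_of_le hle h1)
    have hd : Reach M v d := Relation.ReflTransGen.tail hz (Multiset.mem_of_le hle h2)
    exact ⟨x, z, d, hxv, hz, hd, Multiset.mem_of_le hle h1, Multiset.mem_of_le hle h2,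
      Multiset.mem_of_le hle h3, n1, n2, n3, by rw [← hdg x hxv]; exact d1,
      by rw [← hdg z hz]; exact d2, by rw [← hdg d hd]; exact d3⟩

end Helper42.L9
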