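import Pool.Agent.helper42.L9.Gal2
import Pool.Agent.helper42.L9.Eph3
import Mathlib.Data.List.Chain
import Mathlib.Logic.Relation

/-!
# Subcubic multigraphs whose components are not trees

`at_T`: a multigraph of maximum degree three with caps `dg - 1` (or more) is Alon-Tarsi as soon as
every component has a vertex with slack, or is not a tree (expressed by the free slots of any three
vertices), and there is no `K_4`.
-/

set_option linter.unusedSimpArgs false

namespace Helper42.L9

open MvPolynomial Finset

variable {V : Type*} {M : Multiset (Sym2 V)}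

/-- adjacency closure -/
def Reach (M : Multiset (Sym2 V)) : V → V → Prop := Relation.ReflTransGen (fun a b => s(a, b) ∈ M)

/-- the start block of a minimal even cycle -/
theorem start_of_minCyc (hM : M.Nodup) (hl : ∀ e ∈ M, ¬ e.IsDiag)
    (hdeg : ∀ v, dg M v ≤ 3) (hK : NoK4 M) {a : V} {l : List V} (h : MinCyc M a l) :
    ∃ (A : Finset V) (c₁ : V → ℕ), inn A M ≠ 0 ∧ AT (inn A M) c₁ ∧
      ∀ v ∈ A, c₁ v + dg (crs A M) v + 1 ≤ dg M v := by
  classical
  set A : Finset V := (a :: l).toFinset with hA
  have hinn : (inn A M).Nodup := Multiset.nodup_of_le (Multiset.filter_le _ _) hM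
  have hcle : pathM a l a ≤ inn A M := by
    apply nodup_le (cyc_nodup a l h.nodup h.len)
    intro e he
    unfold inn
    rw [Multiset.mem_filter]
    refine ⟨h.sub e he, fun v hv => ?_⟩
    rw [hA, List.mem_toFinset]
    exact mem_cyc he hv
  obtain ⟨R, hR⟩ := Multiset.le_iff_exists_add.mp hcle
  have hinn0 : inn A M ≠ 0 := by
    rw [hR]
    intro h0
    have := congrArg Multiset.card h0
    rw [Multiset.card_add, card_pathM] at this
    simp at this
  have hnd := hinn
  rw [hR, Multiset.nodup_add] at hnd
  have hRmem : ∀ e ∈ R, e ∈ M ∧ (∀ v ∈ e, v ∈ a :: l) ∧ e ∉ pathM a l a := by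
    intro e he
    have h1 : e ∈ inn A M := by rw [hR]; exact Multiset.mem_add.mpr (Or.inr he)
    unfold inn at h1
    rw [Multiset.mem_filter] at h1
    refine ⟨h1.1, fun v hv => ?_, fun hh => ?_⟩
    · have := h1.2 v hv
      rwa [hA, List.mem_toFinset] at this
    · exact (Multiset.disjoint_left.mp hnd.2.2 hh) he
  rcases Multiset.empty_or_exists_mem R with hR0 | ⟨e, he⟩
  · -- no chord
    refine ⟨A, fun _ => 1, hinn0, ?_, ?_⟩
    · rw [hR, hR0, add_zero]
      have hlen := h.len
      obtain ⟨l', d, rfl⟩ : ∃ l' d, l = l' ++ [d] :=
        ⟨l.dropLast, l.getLast (by rintro rfl; simp at hlen),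
          (List.dropLast_append_getLast _).symm⟩
      rw [pathM_append, pathM_nil, Sym2.eq_swap]
      refine at_evenCycle h.nodup ?_ (fun _ _ => le_rfl)
      have := h.odd
      simp only [List.length_append, List.length_cons, List.length_nil] at this
      rw [Nat.odd_iff] at this
      rw [Nat.even_iff]; omega
    · intro v hv
      have h1 := dg_split A M v
      have h2 := hdeg v
      rw [hR, hR0, add_zero, dg_cyc a l h.nodup (by have := h.len; omega),
        if_pos (by rwa [hA, List.mem_toFinset] at hv)] at h1
      show 1 + dg (crs A M) v + 1 ≤ dg M v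
      omega
  · -- one chord
    obtain ⟨R', rfl⟩ := Multiset.exists_cons_of_mem he
    induction e with
    | _ p q =>
      obtain ⟨hpqM, hpqA, hpqc⟩ := hRmem _ he
      obtain ⟨l', h', hpath, hmem⟩ := h.head (hpqA p (Sym2.mem_mk_left _ _))
      have hpq : q ≠ p := by
        have := hl _ hpqM
        rw [Sym2.mk_isDiag_iff] at this
        exact fun hh => this hh.symm
      have hq : q ∈ l' := by
        have := (hmem q).mpr (hpqA q (Sym2.mem_mk_right _ _))
        rw [List.mem_cons] at this
        exact this.resolve_left hpq
      obtain ⟨l₁, l₂, rfl⟩ := List.append_of_mem hq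
      have hR' : R' = 0 := by
        rcases Multiset.empty_or_exists_mem R' with h0 | ⟨e', he'⟩
        · exact h0
        · exfalso
          obtain ⟨h1, h2, h3⟩ := hRmem e' (Multiset.mem_cons_of_mem he')
          refine no_two_chords hl hdeg hK h' hpqM (by rw [hpath]; exact hpqc) h1
            (by rw [hpath]; exact h3) ?_ (fun v hv => (hmem v).mpr (h2 v hv))
          rintro rfl
          exact (Multiset.nodup_cons.mp hnd.2.1).1 he'
      subst hR'
      obtain ⟨o1, o2⟩ := h'.chord_odd hpqM (by rw [hpath]; exact hpqc)
      have hin : inn A M = pathM p l₁ q + (pathM q l₂ p + {s(p, q)}) := by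
        rw [hR, ← hpath, pathM_append, add_assoc, Multiset.cons_zero]
      have hn := h'.nodup
      refine ⟨A, fun v => if v = p then 2 else 1, hinn0, ?_, ?_⟩
      · match l₁, o1, hn, hin with
        | [], o1, _, _ => simp at o1
        | b :: l₁, o1, hn, hin =>
          match l₂, o2, hn, hin with
          | [], o2, _, _ => simp at o2
          | d :: l₂, o2, hn, hin =>
            rw [hin]
            have ev1 : Even l₁.length := by
              simp only [List.length_cons] at o1
              rw [Nat.odd_iff] at o1; rw [Nat.even_iff]; omega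
            have ev2 : Even l₂.length := by
              simp only [List.length_cons] at o2
              rw [Nat.odd_iff] at o2; rw [Nat.even_iff]; omega
            have hn1 := hn
            simp only [List.nodup_cons, List.mem_cons, List.mem_append, List.cons_append,
              not_or, List.nodup_append] at hn1
            obtain ⟨⟨hpb, hpl1, hpq', hpd, hpl2⟩, ⟨hbl1, hbq, hbd, hbl2⟩, hl1, ⟨⟨hqd, hql2⟩,
              hdl2, hl2⟩, hcross⟩ := hn1
            have hl1q : q ∉ l₁ := fun hh => hcross q hh q (Or.inl rfl) rfl
            have hl1d : d ∉ l₁ := fun hh => hcross d hh d (Or.inr (Or.inl rfl)) rfl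
            have hl12 : ∀ v ∈ l₁, v ∉ l₂ := fun v hv hv2 =>
              hcross v hv v (Or.inr (Or.inr hv2)) rfl
            have cge : ∀ v : V, 1 ≤ (if v = p then 2 else 1) := by
              intro v; split_ifs <;> omega
            refine AT.path_odd ev1 ?_ ?_ (fun v _ => cge v) ?_
            · simp only [List.nodup_cons, List.mem_cons, List.mem_append, List.not_mem_nil,
                or_false, not_or, List.nodup_append, List.nodup_nil, not_false_eq_true,
                and_true]
              refine ⟨⟨hpb, hpl1, hpq'⟩, ⟨hbl1, hbq⟩, hl1, trivial, ?_⟩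
              rintro x hx y rfl rfl
              exact hl1q hx
            · intro v hv e he hve
              rcases Multiset.mem_add.mp he with he | he
              · rcases mem_pathM he hve with h1 | h1 | h1
                · exact hl1q (h1 ▸ hv)
                · rw [List.mem_cons] at h1
                  rcases h1 with h1 | h1
                  · exact hl1d (h1 ▸ hv)
                  · exact hl12 v hv h1
                · exact hpl1 (h1 ▸ hv)
              · rw [Multiset.mem_singleton] at he
                subst he
                rw [Sym2.mem_iff] at hve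
                rcases hve with h1 | h1
                · exact hpl1 (h1 ▸ hv)
                · exact hl1q (h1 ▸ hv)
            · have key : AT (pathM q (d :: l₂) p + (s(p, b) ::ₘ s(b, q) ::ₘ s(p, q) ::ₘ 0))
                  (fun v => if v = p then 2 else 1) := by
                refine AT.path_odd ev2 ?_ ?_ (fun v _ => cge v) ?_
                · simp only [List.nodup_cons, List.mem_cons, List.mem_append, List.not_mem_nil,
                    or_false, not_or, List.nodup_append, List.nodup_nil, not_false_eq_true,
                    and_true]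
                  refine ⟨⟨hqd, hql2, Ne.symm hpq'⟩, ⟨hdl2, Ne.symm hpd⟩, hl2, trivial, ?_⟩
                  rintro x hx y rfl rfl
                  exact hpl2 hx
                · intro v hv e he hve
                  simp only [Multiset.mem_cons, Multiset.notMem_zero, or_false] at he
                  rcases he with rfl | rfl | rfl
                  · rw [Sym2.mem_iff] at hve
                    rcases hve with h1 | h1
                    · exact hpl2 (h1 ▸ hv)
                    · exact hbl2 (h1 ▸ hv)
                  · rw [Sym2.mem_iff] at hve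
                    rcases hve with h1 | h1
                    · exact hbl2 (h1 ▸ hv)
                    · exact hql2 (h1 ▸ hv)
                  · rw [Sym2.mem_iff] at hve
                    rcases hve with h1 | h1
                    · exact hpl2 (h1 ▸ hv)
                    · exact hql2 (h1 ▸ hv)
                · have := at_diamond (p := p) (b := b) (q := q) (d := d)
                    (c := fun v => if v = p then 2 else 1)
                    (by
                      simp only [List.nodup_cons, List.mem_cons, List.not_mem_nil, or_false,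
                        not_or, not_false_eq_true, List.nodup_nil, and_true]
                      exact ⟨⟨hpb, hpq', hpd⟩, ⟨hbq, hbd⟩, hqd⟩)
                    (by simp) (cge b) (cge q) (cge d)
                  have e1 : s(q, d) ::ₘ s(d, p) ::ₘ s(p, b) ::ₘ s(b, q) ::ₘ s(p, q) ::ₘ
                      (0 : Multiset (Sym2 V)) =
                      s(p, b) ::ₘ s(b, q) ::ₘ s(q, d) ::ₘ s(d, p) ::ₘ s(p, q) ::ₘ 0 := by
                    rw [Multiset.cons_swap s(d, p) s(p, b), Multiset.cons_swap s(q, d) s(p, b),
                      Multiset.cons_swap s(d, p) s(b, q), Multiset.cons_swap s(q, d) s(b, q)]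
                  rw [e1]; exact this
              have e2 : s(p, b) ::ₘ s(b, q) ::ₘ (pathM q (d :: l₂) p + {s(p, q)}) =
                  pathM q (d :: l₂) p + (s(p, b) ::ₘ s(b, q) ::ₘ s(p, q) ::ₘ 0) := by
                rw [Multiset.add_cons, Multiset.add_cons, Multiset.cons_zero]
              rw [e2]; exact key
      · intro v hv
        have hvA : v ∈ p :: (l₁ ++ q :: l₂) := by
          rw [hmem]; rwa [hA, List.mem_toFinset] at hv
        have h1 := dg_split A M v
        have h2 := hdeg v
        have h4 : inn A M = s(p, q) ::ₘ pathM p (l₁ ++ q :: l₂) p := by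
          rw [hin, pathM_append, ← Multiset.singleton_add, ← add_assoc, add_comm]
        by_cases hvp : v = p
        · rw [h4, dg_cons_pos (by rw [hvp]; exact Sym2.mem_mk_left _ _),
            dg_cyc p _ h'.nodup (by have := h'.len; omega), if_pos hvA] at h1
          simp only [hvp, if_true] at h1 h2 ⊢
          omega
        · have h5 : dg (pathM p (l₁ ++ q :: l₂) p) v ≤ dg (inn A M) v := by
            rw [h4]
            exact dg_le_of_le (Multiset.le_cons_self _ _) v
          rw [dg_cyc p _ h'.nodup (by have := h'.len; omega), if_pos hvA] at h5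
          simp only [hvp, if_false]
          omega


/-! ### no even cycle -/

theorem chain_of_path {x d : V} {l : List V} :
    (∀ e ∈ pathM x l d, e ∈ M) ↔ List.IsChain (fun a b => s(a, b) ∈ M) (x :: (l ++ [d])) := by
  induction l generalizing x with
  | nil => simp
  | cons b l ih =>
    rw [List.cons_append, List.isChain_cons_cons, ← ih, pathM_cons]
    simp only [Multiset.mem_cons, forall_eq_or_imp]

theorem chain_reach {x : V} {L : List V}
    (h : List.IsChain (fun a b => s(a, b) ∈ M) (x :: L)) : ∀ w ∈ x :: L, Reach M x w := by
  induction L generalizing x with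
  | nil =>
    intro w hw
    rw [List.mem_singleton] at hw
    rw [hw]
    exact Relation.ReflTransGen.refl
  | cons b L ih =>
    rw [List.isChain_cons_cons] at h
    intro w hw
    rw [List.mem_cons] at hw
    rcases hw with rfl | hw
    · exact Relation.ReflTransGen.refl
    · exact Relation.ReflTransGen.head h.1 (ih h.2 w hw)

theorem list_split_last {L : List V} (h : 2 ≤ L.length) :
    ∃ x l d, L = x :: (l ++ [d]) := by
  match L, h with
  | x :: R, h =>
    rcases List.eq_nil_or_concat R with rfl | ⟨l, d, rfl⟩
    · simp at h
    · exact ⟨x, l, d, by rw [List.concat_eq_append]⟩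

/-- a longest path -/
theorem exists_longest (hl : ∀ e ∈ M, ¬ e.IsDiag) (hne : M ≠ 0) :
    ∃ L : List V, L.Nodup ∧ List.IsChain (fun a b => s(a, b) ∈ M) L ∧ 2 ≤ L.length ∧
      ∀ L' : List V, L'.Nodup → List.IsChain (fun a b => s(a, b) ∈ M) L' →
        L'.length ≤ L.length := by
  classical
  let P : ℕ → Prop := fun n => ∃ L : List V, L.Nodup ∧
    List.IsChain (fun a b => s(a, b) ∈ M) L ∧ L.length = n
  have h2 : P 2 := by
    obtain ⟨e, he⟩ := Multiset.exists_mem_of_ne_zero hne
    induction e with
    | _ x y =>
      have hxy : x ≠ y := by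
        have := hl _ he
        rw [Sym2.mk_isDiag_iff] at this
        exact this
      exact ⟨[x, y], by simp [hxy], by simp [he], rfl⟩
  have hbd : ∀ n, P n → n ≤ Multiset.card M + 1 := by
    rintro n ⟨L, hn, hs, rfl⟩
    by_cases hL : 2 ≤ L.length
    · obtain ⟨x, l, d, rfl⟩ := list_split_last hL
      rw [← chain_of_path] at hs
      have := Multiset.card_le_card (nodup_le (pathM_nodup x d l hn) hs)
      rw [card_pathM] at this
      simp only [List.length_cons, List.length_append, List.length_nil]
      omega
    · omega
  have hfin := Nat.findGreatest_spec (P := P) (m := 2) (n := Multiset.card M + 2)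
    (by omega) h2
  have hmax : ∀ k, P k → k ≤ Nat.findGreatest P (Multiset.card M + 2) := by
    intro k hk
    exact Nat.le_findGreatest (by have := hbd k hk; omega) hk
  obtain ⟨L, hn, hs, hL⟩ := hfin
  refine ⟨L, hn, hs, ?_, fun L' hn' hs' => ?_⟩
  · rw [hL]; exact hmax 2 h2
  · rw [hL]; exact hmax _ ⟨L', hn', hs', rfl⟩

/-- the end of a longest path has degree at most two if there is no even cycle -/
theorem end_deg (hM : M.Nodup) (hl : ∀ e ∈ M, ¬ e.IsDiag)
    (hno : ¬ ∃ a l, IsCyc M a l ∧ Odd l.length) {x : V} {R : List V} (hn : (x :: R).Nodup)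
    (hs : List.IsChain (fun a b => s(a, b) ∈ M) (x :: R)) (h2 : 2 ≤ (x :: R).length)
    (hmax : ∀ L' : List V, L'.Nodup → List.IsChain (fun a b => s(a, b) ∈ M) L' →
        L'.length ≤ (x :: R).length) :
    dg M x ≤ 2 ∧ ∀ b, s(x, b) ∈ M → b ∈ R := by
  classical
  have hin : ∀ b, s(x, b) ∈ M → b ∈ R := by
    intro b hb
    by_contra hbl
    have h := hmax (b :: x :: R) ?_ ?_
    · simp at h
    · rw [List.nodup_cons]
      refine ⟨?_, hn⟩
      rw [List.mem_cons, not_or]
      refine ⟨?_, hbl⟩
      rintro rfl
      exact hl _ hb (by simp)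
    · rw [List.isChain_cons_cons]
      exact ⟨by rw [Sym2.eq_swap]; exact hb, hs⟩
  refine ⟨?_, hin⟩
  by_contra hcon
  push Not at hcon
  obtain ⟨b₁, b₂, b₃, h12, h13, h23, hb1, hb2, hb3⟩ := three_nbrs hM (v := x) (by omega)
  obtain ⟨t₁, q₁, t₂, q₂, t₃, q₃, t₄, hsplit, hq1, hq2, hq3⟩ :=
    three_split (p := fun b => s(x, b) ∈ M) h12 h13 h23 (hin _ hb1) (hin _ hb2) (hin _ hb3)
      hb1 hb2 hb3
  obtain ⟨x', l, d, hR⟩ := list_split_last h2
  obtain ⟨rfl, rfl⟩ := List.cons.inj hR
  have hP := chain_of_path.mpr hs
  have hL : l ++ [d] = (t₁ ++ q₁ :: t₂) ++ q₂ :: (t₃ ++ q₃ :: t₄) := by rw [hsplit]; simp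
  apply hno
  refine two_conn (q := q₂) (q' := q₃) (κ := []) (κ' := []) hn hP hL ⟨?_, List.nodup_nil, by simp, ?_⟩
    ⟨?_, List.nodup_nil, by simp, ?_⟩ (by simp) (by simp; omega)
  · rw [hL]; simp
  · intro e he
    rw [pathM_nil, Multiset.mem_singleton] at he
    rw [he, Sym2.eq_swap]; exact hq2
  · rw [hL]; simp
  · intro e he
    rw [pathM_nil, Multiset.mem_singleton] at he
    rw [he, Sym2.eq_swap]; exact hq3

/-- without even cycles there is a component with three free slots -/
theorem exists_slots (hM : M.Nodup) (hl : ∀ e ∈ M, ¬ e.IsDiag) (hne : M ≠ 0)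
    (hno : ¬ ∃ a l, IsCyc M a l ∧ Odd l.length) :
    ∃ v, dg M v ≠ 0 ∧ ∃ A : Finset V, (∀ a ∈ A, Reach M v a) ∧
      3 ≤ ∑ a ∈ A, (3 - dg M a) := by
  classical
  obtain ⟨L, hn, hs, h2, hmax⟩ := exists_longest hl hne
  obtain ⟨x, l, d, rfl⟩ := list_split_last h2
  obtain ⟨hx2, hin⟩ := end_deg hM hl hno hn hs h2 hmax
  have hsym : (fun a b : V => s(a, b) ∈ M) = (fun a b => s(b, a) ∈ M) := by
    funext a b; rw [Sym2.eq_swap]
  have hxd : x ≠ d := by
    rintro rfl
    exact (List.nodup_cons.mp hn).1 (by simp)
  -- the other end
  have hrev : (x :: (l ++ [d])).reverse = d :: (x :: l).reverse := by simp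
  have hd2 : dg M d ≤ 2 := by
    refine (end_deg hM hl hno (x := d) (R := (x :: l).reverse) ?_ ?_ ?_ ?_).1
    · rw [← hrev, List.nodup_reverse]; exact hn
    · rw [← hrev, List.isChain_reverse, ← hsym]; exact hs
    · rw [← hrev, List.length_reverse]; exact h2
    · rw [← hrev, List.length_reverse]; exact hmax
  have hreach := chain_reach hs
  have hx0 : dg M x ≠ 0 := by
    match l, hs with
    | [], hs =>
      simp only [List.nil_append, List.isChain_cons_cons] at hs
      exact (dg_pos hs.1).1
    | b :: l, hs =>
      rw [List.cons_append, List.isChain_cons_cons] at hs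
      exact (dg_pos hs.1).1
  refine ⟨x, hx0, ?_⟩
  by_cases h1 : dg M x ≤ 1
  · refine ⟨{x, d}, ?_, ?_⟩
    · intro a ha
      rw [Finset.mem_insert, Finset.mem_singleton] at ha
      rcases ha with rfl | rfl
      · exact Relation.ReflTransGen.refl
      · exact hreach _ (by simp)
    · rw [Finset.sum_pair hxd]; omega
  · obtain ⟨p, hp⟩ : ∃ p l', l ++ [d] = p :: l' := by
      match l with
      | [] => exact ⟨d, [], rfl⟩
      | b :: l => exact ⟨b, l ++ [d], rfl⟩
    obtain ⟨l', hp⟩ := hp
    obtain ⟨b, hbp, hb⟩ := two_nbrs hM (v := x) (by omega) p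
    obtain ⟨t, r, ht⟩ := List.append_of_mem (hin b hb)
    have ht0 : t ≠ [] := by
      rintro rfl
      rw [hp, List.nil_append] at ht
      exact hbp (List.cons.inj ht).1.symm
    obtain ⟨t', z, rfl⟩ := (List.eq_nil_or_concat t).resolve_left ht0
    rw [List.concat_eq_append] at ht
    have hL : x :: (l ++ [d]) = (x :: (t' ++ [z])) ++ b :: r := by rw [ht]; simp
    have hrot : (x :: (t' ++ [z])).reverse ++ b :: r = z :: ((x :: t').reverse ++ b :: r) := by
      simp
    have hperm : ((x :: (t' ++ [z])).reverse ++ b :: r).Perm (x :: (l ++ [d])) := by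
      rw [hL]
      exact (List.reverse_perm _).append_right _
    have hz2 : dg M z ≤ 2 := by
      refine (end_deg hM hl hno (x := z) (R := (x :: t').reverse ++ b :: r) ?_ ?_ ?_ ?_).1
      · rw [← hrot]
        exact hperm.nodup_iff.mpr hn
      · rw [← hrot, List.isChain_append]
        rw [hL, List.isChain_append] at hs
        refine ⟨?_, hs.2.1, ?_⟩
        · rw [List.isChain_reverse, ← hsym]; exact hs.1
        · intro u hu w hw
          simp only [List.reverse_cons, List.getLast?_append, List.getLast?_singleton,
            Option.some_or, Option.mem_def, Option.some.injEq, List.head?_cons] at hu hw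
          rw [← hu, ← hw]; exact hb
      · rw [← hrot, hperm.length_eq]; exact h2
      · rw [← hrot, hperm.length_eq]; exact hmax
    have hzL : z ∈ x :: (l ++ [d]) := by rw [hL]; simp
    have hxz : x ≠ z := by
      rintro rfl
      rw [ht] at hn
      exact (List.nodup_cons.mp hn).1 (by simp)
    have hzd : z ≠ d := by
      rintro rfl
      rcases List.eq_nil_or_concat r with rfl | ⟨r', y, rfl⟩
      · have e1 := List.append_inj' (s₁ := l) (t₁ := [z]) (s₂ := t' ++ [z]) (t₂ := [b])
          (by rw [ht]) rfl
        rw [List.singleton_inj] at e1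
        rw [ht, ← e1.2] at hn
        have := (List.nodup_cons.mp hn).2
        rw [List.nodup_append] at this
        exact this.2.2 z (by simp) z (by simp) rfl
      · have e1 := List.append_inj' (s₁ := l) (t₁ := [z]) (s₂ := t' ++ [z] ++ b :: r')
          (t₂ := [y]) (by rw [ht]; simp) rfl
        rw [List.singleton_inj] at e1
        rw [ht, ← e1.2] at hn
        have := (List.nodup_cons.mp hn).2
        rw [List.nodup_append] at this
        exact this.2.2 z (by simp) z (by simp) rfl
    refine ⟨{x, z, d}, ?_, ?_⟩
    · intro a ha
      simp only [Finset.mem_insert, Finset.mem_singleton] at ha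
      rcases ha with rfl | rfl | rfl
      · exact Relation.ReflTransGen.refl
      · exact hreach _ hzL
      · exact hreach _ (by simp)
    · rw [Finset.sum_insert (by simp [hxz, hxd]), Finset.sum_pair hzd]
      omega

/-- every component has slack or at most two free slots on any set -/
def TC (M : Multiset (Sym2 V)) (c : V → ℕ) : Prop :=
  ∀ v, dg M v ≠ 0 → (∃ w, Reach M v w ∧ dg M w ≤ c w) ∨
    (∀ A : Finset V, (∀ a ∈ A, Reach M v a) → ∑ a ∈ A, (3 - dg M a) ≤ 2)

theorem Reach.mono {M N : Multiset (Sym2 V)} (h : N ≤ M) {v w : V} (hr : Reach N v w) :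
    Reach M v w := by
  induction hr with
  | refl => exact Relation.ReflTransGen.refl
  | tail _ hbc ih => exact ih.tail (Multiset.mem_of_le h hbc)

theorem TC.outt {c : V → ℕ} (h : TC M c) (hc : ∀ v, dg M v ≤ c v + 1) (A : Finset V) :
    TC (outt A M) c := by
  classical
  intro v hv
  by_cases h1 : ∃ w, Reach (Helper42.L9.outt A M) v w ∧ ∃ x ∈ A, s(w, x) ∈ M
  · obtain ⟨w, hw, x, hx, hwx⟩ := h1
    left
    refine ⟨w, hw, ?_⟩
    have h2 := dg_outt_one hx hwx
    have h3 := hc w
    omega
  · push Not at h1
    have hvA : v ∉ A := fun hh => hv (dg_outt_mem hh)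
    have hout : ∀ w, Reach (Helper42.L9.outt A M) v w → w ∉ A := by
      intro w hw
      rcases Relation.ReflTransGen.cases_tail hw with rfl | ⟨u, _, huw⟩
      · exact hvA
      · intro hh
        exact (mem_outt.mp huw).2 w (Sym2.mem_mk_right _ _) hh
    have hedge : ∀ w y, Reach (Helper42.L9.outt A M) v w → s(w, y) ∈ M →
        s(w, y) ∈ Helper42.L9.outt A M := by
      intro w y hw hwy
      rw [mem_outt]
      refine ⟨hwy, fun u hu => ?_⟩
      rw [Sym2.mem_iff] at hu
      rcases hu with rfl | rfl
      · exact hout _ hw
      · exact fun hh => h1 w hw _ hh hwy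
    have hback : ∀ w, Reach M v w → Reach (Helper42.L9.outt A M) v w := by
      intro w hw
      induction hw with
      | refl => exact Relation.ReflTransGen.refl
      | tail _ hbc ih => exact ih.tail (hedge _ _ ih hbc)
    have hdg : ∀ w, Reach (Helper42.L9.outt A M) v w → dg (Helper42.L9.outt A M) w = dg M w := by
      intro w hw
      unfold Helper42.L9.outt dg
      rw [Multiset.countP_filter]
      apply Multiset.countP_congr rfl
      intro e he
      apply propext
      constructor
      · exact fun hh => hh.1
      · intro hwe
        refine ⟨hwe, ?_⟩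
        obtain ⟨y, rfl⟩ := hwe
        exact (mem_outt.mp (hedge w y hw he)).2
    have hv' : dg M v ≠ 0 := by
      rw [← hdg v Relation.ReflTransGen.refl]; exact hv
    rcases h v hv' with ⟨w, hw, hwc⟩ | hA
    · left
      exact ⟨w, hback w hw, by rw [hdg w (hback w hw)]; exact hwc⟩
    · right
      intro B hB
      have h2 := hA B (fun a ha => (hB a ha).mono (outt_le A M))
      refine le_trans (le_of_eq (Finset.sum_congr rfl fun a ha => ?_)) h2
      rw [hdg a (hB a ha)]

theorem at_T_aux {c : V → ℕ} : ∀ (n : ℕ) (M : Multiset (Sym2 V)), Multiset.card M ≤ n →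
    (∀ e ∈ M, ¬ e.IsDiag) → (∀ v, dg M v ≤ 3) → (∀ v, dg M v ≤ c v + 1) → NoK4 M → TC M c →
    AT M c := by
  classical
  intro n
  induction n with
  | zero =>
    intro M hn _ _ _ _ _
    have : M = 0 := Multiset.card_eq_zero.mp (by omega)
    subst this
    exact at_zero _
  | succ n ih =>
    intro M hn hl hdeg hc hK hT
    by_cases h0 : M = 0
    · subst h0; exact at_zero _
    -- recursion on the outer part
    have rec_ : ∀ A : Finset V, Multiset.card (outt A M) < Multiset.card M →
        AT (outt A M) c := by
      intro A hA
      have hle := outt_le A M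
      exact ih (outt A M) (by omega) (fun e he => hl e (Multiset.mem_of_le hle he))
        (fun v => (dg_le_of_le hle v).trans (hdeg v))
        (fun v => (dg_le_of_le hle v).trans (hc v)) (hK.of_le hle) (hT.outt hc A)
    have hlt : ∀ (A : Finset V) (e : Sym2 V), e ∈ M → (∃ v ∈ e, v ∈ A) →
        Multiset.card (outt A M) < Multiset.card M := by
      intro A e he ⟨v, hve, hvA⟩
      refine lt_of_le_of_ne (Multiset.card_le_card (outt_le A M)) fun hh => ?_
      have := Multiset.eq_of_le_of_card_le (outt_le A M) hh.ge
      have h1 : e ∈ outt A M := by rw [this]; exact he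
      unfold outt at h1
      exact (Multiset.mem_filter.mp h1).2 v hve hvA
    by_cases hlow : ∃ v, dg M v ≠ 0 ∧ dg M v ≤ c v
    · obtain ⟨v, hv0, hv2⟩ := hlow
      have hex : ∃ e ∈ M, v ∈ e := by
        by_contra hcon
        push Not at hcon
        apply hv0
        unfold dg
        rw [Multiset.countP_eq_zero]
        exact hcon
      obtain ⟨e, he, hve⟩ := hex
      exact AT.peel v M _ hl hv2 (rec_ {v} (hlt {v} e he ⟨v, hve, Finset.mem_singleton_self v⟩))
    · have htight : ∀ v, dg M v = 0 ∨ dg M v = c v + 1 := by
        intro v
        by_contra hcon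
        push Not at hcon
        have h1 : c v < dg M v := by
          by_contra h2
          exact hlow ⟨v, hcon.1, by omega⟩
        have h2 := hc v
        omega
      by_cases hM : M.Nodup
      · have hcyc : ∃ a l, IsCyc M a l ∧ Odd l.length := by
          by_contra hno
          obtain ⟨v, hv, A, hA, hsum⟩ := exists_slots hM hl h0 hno
          rcases hT v hv with ⟨w, hw, hwc⟩ | hall
          · apply hlow
            refine ⟨w, ?_, hwc⟩
            rcases Relation.ReflTransGen.cases_tail hw with rfl | ⟨u, _, huw⟩
            · exact hv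
            · exact (dg_pos huw).2
          · have := hall A hA
            omega
        have hmin : ∃ a l, MinCyc M a l := by
          have hP : ∃ n, ∃ a l, IsCyc M a l ∧ Odd l.length ∧ l.length = n := by
            obtain ⟨a, l, h1, h2⟩ := hcyc
            exact ⟨_, a, l, h1, h2, rfl⟩
          obtain ⟨a, l, h1, h2, h3'⟩ := Nat.find_spec hP
          refine ⟨a, l, h1, h2, fun a' l' h1' h2' => ?_⟩
          rw [h3']
          exact Nat.find_min' hP ⟨a', l', h1', h2', rfl⟩
        obtain ⟨a, l, hmc⟩ := hmin
        obtain ⟨A, c₁, hne, hAT, hcA⟩ := start_of_minCyc hM hl hdeg hK hmc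
        obtain ⟨e, he⟩ := Multiset.exists_mem_of_ne_zero hne
        unfold inn at he
        rw [Multiset.mem_filter] at he
        refine AT.block' A M c₁ _ hAT
          (rec_ A (hlt A e he.1 ⟨_, (out_mem e).1, he.2 _ (out_mem e).1⟩)) ?_
        intro v hv
        have h4 := hcA v hv
        rcases htight v with h | h <;> omega
      · -- a double edge
        rw [Multiset.nodup_iff_count_le_one] at hM
        push Not at hM
        obtain ⟨e, he⟩ := hM
        induction e with
        | _ a b =>
          have hab' : s(a, b) ∈ M := Multiset.count_pos.mp (by omega)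
          have hab : a ≠ b := by
            have := hl _ hab'
            rw [Sym2.mk_isDiag_iff] at this
            exact this
          have hall : ∀ e ∈ inn {a, b} M, e = s(a, b) := by
            intro e he
            unfold inn at he
            rw [Multiset.mem_filter] at he
            have h1 := he.2 _ (out_mem e).1
            have h2 := he.2 _ (out_mem e).2
            have h3 : s(e.out.1, e.out.2) = e := Quot.out_eq e
            have h4 : e.out.1 ≠ e.out.2 := by
              intro hh
              apply hl e he.1
              rw [← h3, Sym2.mk_isDiag_iff]; exact hh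
            rw [Finset.mem_insert, Finset.mem_singleton] at h1 h2
            rw [← h3, Sym2.eq_iff]
            rcases h1 with h1 | h1 <;> rcases h2 with h2 | h2
            · exact absurd (h1.trans h2.symm) h4
            · exact Or.inl ⟨h1, h2⟩
            · exact Or.inr ⟨h1, h2⟩
            · exact absurd (h1.trans h2.symm) h4
          have hrep := Multiset.eq_replicate_of_mem hall
          set k := Multiset.card (inn {a, b} M) with hk
          have hkc : k = Multiset.count s(a, b) M := by
            have h1 : Multiset.count s(a, b) (inn {a, b} M) = Multiset.count s(a, b) M := by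
              unfold inn
              rw [Multiset.count_filter_of_pos]
              intro v hv
              rw [Sym2.mem_iff] at hv
              rw [Finset.mem_insert, Finset.mem_singleton]
              exact hv
            rw [← h1]
            conv_rhs => rw [hrep]
            rw [Multiset.count_replicate_self]
          have hdgk : ∀ v, v = a ∨ v = b → dg (inn {a, b} M) v = k := by
            intro v hv
            unfold dg
            rw [Multiset.countP_eq_card.mpr]
            intro e he
            rw [hall e he, Sym2.mem_iff]
            exact hv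
          have hk3 : k ≤ 3 := by
            rw [← hdgk a (Or.inl rfl)]
            refine le_trans (dg_le_of_le ?_ a) (hdeg a)
            unfold inn
            exact Multiset.filter_le _ _
          have hrecA := rec_ {a, b} (hlt {a, b} s(a, b) hab'
            ⟨a, Sym2.mem_mk_left _ _, Finset.mem_insert_self _ _⟩)
          have hcr : ∀ v ∈ ({a, b} : Finset V), dg (crs {a, b} M) v + k ≤ c v + 1 := by
            intro v hv
            rw [Finset.mem_insert, Finset.mem_singleton] at hv
            have h1 := dg_split {a, b} M v
            rw [hdgk v hv] at h1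
            rcases htight v with h | h <;> omega
          have hk23 : k = 2 ∨ k = 3 := by omega
          rcases hk23 with hk2 | hk3'
          · refine AT.block' {a, b} M (fun _ => 1) _ ?_ hrecA ?_
            · rw [hrep, hk2]
              exact at_double hab le_rfl le_rfl
            · intro v hv
              have := hcr v hv
              show 1 + dg (crs {a, b} M) v ≤ c v
              omega
          · refine AT.block' {a, b} M (fun _ => 2) _ ?_ hrecA ?_
            · rw [hrep, hk3']
              exact at_triple hab le_rfl (by norm_num)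
            · intro v hv
              have := hcr v hv
              show 2 + dg (crs {a, b} M) v ≤ c v
              omega


theorem at_T (c : V → ℕ) (M : Multiset (Sym2 V)) (hl : ∀ e ∈ M, ¬ e.IsDiag)
    (h3 : ∀ v, dg M v ≤ 3) (hc : ∀ v, dg M v ≤ c v + 1) (hK : NoK4 M)
    (hT : ∀ v, dg M v ≠ 0 → (∃ w, Reach M v w ∧ dg M w ≤ c w) ∨
      (∀ A : Finset V, (∀ a ∈ A, Reach M v a) → ∑ a ∈ A, (3 - dg M a) ≤ 2)) : AT M c :=
  at_T_aux _ M le_rfl hl h3 hc hK hT

end Helper42.L9
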