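import Pool.Agent.helper2.L9.JLem0

/-!
# The joint stage: table `K1`, in small pieces
-/

namespace Pool.Agent.helper2.L9.J

open Pool.Agent.helper40.L9.J

/-- inner part of the table `K1` -/
def fK1 (O A : ℕ) : Bool :=
  M4.all fun B => M3.all fun L =>
    M3.all fun B' => anyB O fun e => M2.all fun c => anyB O fun a => anyB A fun y =>
        (!(Nat.beq y a)) && sdr (t4 e (del B y) (kk L y)) (t4 a B' c)

theorem tK1_5_7 : fK1 5 7 = true := by decide +kernel
theorem tK1_5_11 : fK1 5 11 = true := by decide +kernel
theorem tK1_5_13 : fK1 5 13 = true := by decide +kernel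
theorem tK1_5_14 : fK1 5 14 = true := by decide +kernel
theorem tK1_5_19 : fK1 5 19 = true := by decide +kernel
theorem tK1_5_21 : fK1 5 21 = true := by decide +kernel
theorem tK1_5_22 : fK1 5 22 = true := by decide +kernel
theorem tK1_5_25 : fK1 5 25 = true := by decide +kernel
theorem tK1_5_26 : fK1 5 26 = true := by decide +kernel
theorem tK1_5_28 : fK1 5 28 = true := by decide +kernel
theorem tK1_9_7 : fK1 9 7 = true := by decide +kernel
theorem tK1_9_11 : fK1 9 11 = true := by decide +kernel
theorem tK1_9_13 : fK1 9 13 = true := by decide +kernel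
theorem tK1_9_14 : fK1 9 14 = true := by decide +kernel
theorem tK1_9_19 : fK1 9 19 = true := by decide +kernel
theorem tK1_9_21 : fK1 9 21 = true := by decide +kernel
theorem tK1_9_22 : fK1 9 22 = true := by decide +kernel
theorem tK1_9_25 : fK1 9 25 = true := by decide +kernel
theorem tK1_9_26 : fK1 9 26 = true := by decide +kernel
theorem tK1_9_28 : fK1 9 28 = true := by decide +kernel
theorem tK1_10_7 : fK1 10 7 = true := by decide +kernel
theorem tK1_10_11 : fK1 10 11 = true := by decide +kernel
theorem tK1_10_13 : fK1 10 13 = true := by decide +kernel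
theorem tK1_10_14 : fK1 10 14 = true := by decide +kernel
theorem tK1_10_19 : fK1 10 19 = true := by decide +kernel
theorem tK1_10_21 : fK1 10 21 = true := by decide +kernel
theorem tK1_10_22 : fK1 10 22 = true := by decide +kernel
theorem tK1_10_25 : fK1 10 25 = true := by decide +kernel
theorem tK1_10_26 : fK1 10 26 = true := by decide +kernel
theorem tK1_10_28 : fK1 10 28 = true := by decide +kernel

theorem chkK1' : (trio.all fun O => M3.all fun A => fK1 O A) = true := by
  simp only [trio, M3, List.all_cons, List.all_nil, Bool.and_true, Bool.and_self,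
    tK1_5_7, tK1_5_11, tK1_5_13, tK1_5_14, tK1_5_19, tK1_5_21, tK1_5_22, tK1_5_25, tK1_5_26, 
    tK1_5_28, tK1_9_7, tK1_9_11, tK1_9_13, tK1_9_14, tK1_9_19, tK1_9_21, tK1_9_22, tK1_9_25, 
    tK1_9_26, tK1_9_28, tK1_10_7, tK1_10_11, tK1_10_13, tK1_10_14, tK1_10_19, tK1_10_21, 
    tK1_10_22, tK1_10_25, tK1_10_26, tK1_10_28]

theorem chkK1 : (trio.all fun O => M3.all fun A => M4.all fun B => M3.all fun L =>
    M3.all fun B' => anyB O fun e => M2.all fun c => anyB O fun a => anyB A fun y =>
        (!(Nat.beq y a)) && sdr (t4 e (del B y) (kk L y)) (t4 a B' c)) = true :=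
  chkK1'

end Pool.Agent.helper2.L9.J
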