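import Pool.Agent.helper2.L9.JLem0

/-!
# The joint stage: table `K2`, in small pieces
-/

namespace Pool.Agent.helper2.L9.J

open Pool.Agent.helper40.L9.J

/-- inner part of the table `K2` -/
def fK2 (O A B : ℕ) : Bool :=
  M3.all fun L => M4.all fun B' => anyB O fun e => M2.all fun c => anyB O fun a =>
    anyB A fun y => (!(Nat.beq y a)) && sdr (t4 e B (kk L y)) (t4 a (del B' y) c)

end Pool.Agent.helper2.L9.J
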