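import Pool.Agent.helper2.L9.JK2

/-!
# The joint stage: table `K2 9`, in small pieces
-/

namespace Pool.Agent.helper2.L9.J

open Pool.Agent.helper40.L9.J

theorem tK2_9_7_7 : fK2 9 7 7 = true := by decide +kernel
theorem tK2_9_7_11 : fK2 9 7 11 = true := by decide +kernel
theorem tK2_9_7_13 : fK2 9 7 13 = true := by decide +kernel
theorem tK2_9_7_14 : fK2 9 7 14 = true := by decide +kernel
theorem tK2_9_7_19 : fK2 9 7 19 = true := by decide +kernel
theorem tK2_9_7_21 : fK2 9 7 21 = true := by decide +kernel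
theorem tK2_9_7_22 : fK2 9 7 22 = true := by decide +kernel
theorem tK2_9_7_25 : fK2 9 7 25 = true := by decide +kernel
theorem tK2_9_7_26 : fK2 9 7 26 = true := by decide +kernel
theorem tK2_9_7_28 : fK2 9 7 28 = true := by decide +kernel
theorem tK2_9_11_7 : fK2 9 11 7 = true := by decide +kernel
theorem tK2_9_11_11 : fK2 9 11 11 = true := by decide +kernel
theorem tK2_9_11_13 : fK2 9 11 13 = true := by decide +kernel
theorem tK2_9_11_14 : fK2 9 11 14 = true := by decide +kernel
theorem tK2_9_11_19 : fK2 9 11 19 = true := by decide +kernel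
theorem tK2_9_11_21 : fK2 9 11 21 = true := by decide +kernel
theorem tK2_9_11_22 : fK2 9 11 22 = true := by decide +kernel
theorem tK2_9_11_25 : fK2 9 11 25 = true := by decide +kernel
theorem tK2_9_11_26 : fK2 9 11 26 = true := by decide +kernel
theorem tK2_9_11_28 : fK2 9 11 28 = true := by decide +kernel
theorem tK2_9_13_7 : fK2 9 13 7 = true := by decide +kernel
theorem tK2_9_13_11 : fK2 9 13 11 = true := by decide +kernel
theorem tK2_9_13_13 : fK2 9 13 13 = true := by decide +kernel
theorem tK2_9_13_14 : fK2 9 13 14 = true := by decide +kernel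
theorem tK2_9_13_19 : fK2 9 13 19 = true := by decide +kernel
theorem tK2_9_13_21 : fK2 9 13 21 = true := by decide +kernel
theorem tK2_9_13_22 : fK2 9 13 22 = true := by decide +kernel
theorem tK2_9_13_25 : fK2 9 13 25 = true := by decide +kernel
theorem tK2_9_13_26 : fK2 9 13 26 = true := by decide +kernel
theorem tK2_9_13_28 : fK2 9 13 28 = true := by decide +kernel
theorem tK2_9_14_7 : fK2 9 14 7 = true := by decide +kernel
theorem tK2_9_14_11 : fK2 9 14 11 = true := by decide +kernel
theorem tK2_9_14_13 : fK2 9 14 13 = true := by decide +kernel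
theorem tK2_9_14_14 : fK2 9 14 14 = true := by decide +kernel
theorem tK2_9_14_19 : fK2 9 14 19 = true := by decide +kernel
theorem tK2_9_14_21 : fK2 9 14 21 = true := by decide +kernel
theorem tK2_9_14_22 : fK2 9 14 22 = true := by decide +kernel
theorem tK2_9_14_25 : fK2 9 14 25 = true := by decide +kernel
theorem tK2_9_14_26 : fK2 9 14 26 = true := by decide +kernel
theorem tK2_9_14_28 : fK2 9 14 28 = true := by decide +kernel
theorem tK2_9_19_7 : fK2 9 19 7 = true := by decide +kernel
theorem tK2_9_19_11 : fK2 9 19 11 = true := by decide +kernel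
theorem tK2_9_19_13 : fK2 9 19 13 = true := by decide +kernel
theorem tK2_9_19_14 : fK2 9 19 14 = true := by decide +kernel
theorem tK2_9_19_19 : fK2 9 19 19 = true := by decide +kernel
theorem tK2_9_19_21 : fK2 9 19 21 = true := by decide +kernel
theorem tK2_9_19_22 : fK2 9 19 22 = true := by decide +kernel
theorem tK2_9_19_25 : fK2 9 19 25 = true := by decide +kernel
theorem tK2_9_19_26 : fK2 9 19 26 = true := by decide +kernel
theorem tK2_9_19_28 : fK2 9 19 28 = true := by decide +kernel
theorem tK2_9_21_7 : fK2 9 21 7 = true := by decide +kernel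
theorem tK2_9_21_11 : fK2 9 21 11 = true := by decide +kernel
theorem tK2_9_21_13 : fK2 9 21 13 = true := by decide +kernel
theorem tK2_9_21_14 : fK2 9 21 14 = true := by decide +kernel
theorem tK2_9_21_19 : fK2 9 21 19 = true := by decide +kernel
theorem tK2_9_21_21 : fK2 9 21 21 = true := by decide +kernel
theorem tK2_9_21_22 : fK2 9 21 22 = true := by decide +kernel
theorem tK2_9_21_25 : fK2 9 21 25 = true := by decide +kernel
theorem tK2_9_21_26 : fK2 9 21 26 = true := by decide +kernel
theorem tK2_9_21_28 : fK2 9 21 28 = true := by decide +kernel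
theorem tK2_9_22_7 : fK2 9 22 7 = true := by decide +kernel
theorem tK2_9_22_11 : fK2 9 22 11 = true := by decide +kernel
theorem tK2_9_22_13 : fK2 9 22 13 = true := by decide +kernel
theorem tK2_9_22_14 : fK2 9 22 14 = true := by decide +kernel
theorem tK2_9_22_19 : fK2 9 22 19 = true := by decide +kernel
theorem tK2_9_22_21 : fK2 9 22 21 = true := by decide +kernel
theorem tK2_9_22_22 : fK2 9 22 22 = true := by decide +kernel
theorem tK2_9_22_25 : fK2 9 22 25 = true := by decide +kernel
theorem tK2_9_22_26 : fK2 9 22 26 = true := by decide +kernel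
theorem tK2_9_22_28 : fK2 9 22 28 = true := by decide +kernel
theorem tK2_9_25_7 : fK2 9 25 7 = true := by decide +kernel
theorem tK2_9_25_11 : fK2 9 25 11 = true := by decide +kernel
theorem tK2_9_25_13 : fK2 9 25 13 = true := by decide +kernel
theorem tK2_9_25_14 : fK2 9 25 14 = true := by decide +kernel
theorem tK2_9_25_19 : fK2 9 25 19 = true := by decide +kernel
theorem tK2_9_25_21 : fK2 9 25 21 = true := by decide +kernel
theorem tK2_9_25_22 : fK2 9 25 22 = true := by decide +kernel
theorem tK2_9_25_25 : fK2 9 25 25 = true := by decide +kernel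
theorem tK2_9_25_26 : fK2 9 25 26 = true := by decide +kernel
theorem tK2_9_25_28 : fK2 9 25 28 = true := by decide +kernel
theorem tK2_9_26_7 : fK2 9 26 7 = true := by decide +kernel
theorem tK2_9_26_11 : fK2 9 26 11 = true := by decide +kernel
theorem tK2_9_26_13 : fK2 9 26 13 = true := by decide +kernel
theorem tK2_9_26_14 : fK2 9 26 14 = true := by decide +kernel
theorem tK2_9_26_19 : fK2 9 26 19 = true := by decide +kernel
theorem tK2_9_26_21 : fK2 9 26 21 = true := by decide +kernel
theorem tK2_9_26_22 : fK2 9 26 22 = true := by decide +kernel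
theorem tK2_9_26_25 : fK2 9 26 25 = true := by decide +kernel
theorem tK2_9_26_26 : fK2 9 26 26 = true := by decide +kernel
theorem tK2_9_26_28 : fK2 9 26 28 = true := by decide +kernel
theorem tK2_9_28_7 : fK2 9 28 7 = true := by decide +kernel
theorem tK2_9_28_11 : fK2 9 28 11 = true := by decide +kernel
theorem tK2_9_28_13 : fK2 9 28 13 = true := by decide +kernel
theorem tK2_9_28_14 : fK2 9 28 14 = true := by decide +kernel
theorem tK2_9_28_19 : fK2 9 28 19 = true := by decide +kernel
theorem tK2_9_28_21 : fK2 9 28 21 = true := by decide +kernel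
theorem tK2_9_28_22 : fK2 9 28 22 = true := by decide +kernel
theorem tK2_9_28_25 : fK2 9 28 25 = true := by decide +kernel
theorem tK2_9_28_26 : fK2 9 28 26 = true := by decide +kernel
theorem tK2_9_28_28 : fK2 9 28 28 = true := by decide +kernel

theorem chkK2_9 : (M3.all fun A => M3.all fun B => fK2 9 A B) = true := by
  simp only [M3, List.all_cons, List.all_nil, Bool.and_true, Bool.and_self,
    tK2_9_7_7, tK2_9_7_11, tK2_9_7_13, tK2_9_7_14, tK2_9_7_19, tK2_9_7_21, tK2_9_7_22, 
    tK2_9_7_25, tK2_9_7_26, tK2_9_7_28, tK2_9_11_7, tK2_9_11_11, tK2_9_11_13, tK2_9_11_14, 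
    tK2_9_11_19, tK2_9_11_21, tK2_9_11_22, tK2_9_11_25, tK2_9_11_26, tK2_9_11_28, tK2_9_13_7, 
    tK2_9_13_11, tK2_9_13_13, tK2_9_13_14, tK2_9_13_19, tK2_9_13_21, tK2_9_13_22, 
    tK2_9_13_25, tK2_9_13_26, tK2_9_13_28, tK2_9_14_7, tK2_9_14_11, tK2_9_14_13, tK2_9_14_14, 
    tK2_9_14_19, tK2_9_14_21, tK2_9_14_22, tK2_9_14_25, tK2_9_14_26, tK2_9_14_28, tK2_9_19_7, 
    tK2_9_19_11, tK2_9_19_13, tK2_9_19_14, tK2_9_19_19, tK2_9_19_21, tK2_9_19_22, 
    tK2_9_19_25, tK2_9_19_26, tK2_9_19_28, tK2_9_21_7, tK2_9_21_11, tK2_9_21_13, tK2_9_21_14, 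
    tK2_9_21_19, tK2_9_21_21, tK2_9_21_22, tK2_9_21_25, tK2_9_21_26, tK2_9_21_28, tK2_9_22_7, 
    tK2_9_22_11, tK2_9_22_13, tK2_9_22_14, tK2_9_22_19, tK2_9_22_21, tK2_9_22_22, 
    tK2_9_22_25, tK2_9_22_26, tK2_9_22_28, tK2_9_25_7, tK2_9_25_11, tK2_9_25_13, tK2_9_25_14, 
    tK2_9_25_19, tK2_9_25_21, tK2_9_25_22, tK2_9_25_25, tK2_9_25_26, tK2_9_25_28, tK2_9_26_7, 
    tK2_9_26_11, tK2_9_26_13, tK2_9_26_14, tK2_9_26_19, tK2_9_26_21, tK2_9_26_22, 
    tK2_9_26_25, tK2_9_26_26, tK2_9_26_28, tK2_9_28_7, tK2_9_28_11, tK2_9_28_13, tK2_9_28_14, 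
    tK2_9_28_19, tK2_9_28_21, tK2_9_28_22, tK2_9_28_25, tK2_9_28_26, tK2_9_28_28]

end Pool.Agent.helper2.L9.J
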