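import Pool.Agent.helper2.L9.JLem0

/-!
# The joint stage: table `N2y`, in small pieces
-/

namespace Pool.Agent.helper2.L9.J

open Pool.Agent.helper40.L9.J

/-- inner part of the table `N2y` -/
def fN2y (O1 O5 : ℕ) : Bool :=
  M3.all fun A => M3.all fun A' =>
      anyB O1 fun a => anyB O5 fun e => anyB A fun y => anyB A' fun y' =>
        (!(Nat.beq y y')) && sdr (tR a e (sg y)) (tR e a (sg y'))

theorem tN2y_3_3 : fN2y 3 3 = true := by decide +kernel
theorem tN2y_3_5 : fN2y 3 5 = true := by decide +kernel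
theorem tN2y_3_6 : fN2y 3 6 = true := by decide +kernel
theorem tN2y_3_9 : fN2y 3 9 = true := by decide +kernel
theorem tN2y_3_10 : fN2y 3 10 = true := by decide +kernel
theorem tN2y_3_12 : fN2y 3 12 = true := by decide +kernel
theorem tN2y_3_17 : fN2y 3 17 = true := by decide +kernel
theorem tN2y_3_18 : fN2y 3 18 = true := by decide +kernel
theorem tN2y_3_20 : fN2y 3 20 = true := by decide +kernel
theorem tN2y_3_24 : fN2y 3 24 = true := by decide +kernel
theorem tN2y_5_3 : fN2y 5 3 = true := by decide +kernel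
theorem tN2y_5_5 : fN2y 5 5 = true := by decide +kernel
theorem tN2y_5_6 : fN2y 5 6 = true := by decide +kernel
theorem tN2y_5_9 : fN2y 5 9 = true := by decide +kernel
theorem tN2y_5_10 : fN2y 5 10 = true := by decide +kernel
theorem tN2y_5_12 : fN2y 5 12 = true := by decide +kernel
theorem tN2y_5_17 : fN2y 5 17 = true := by decide +kernel
theorem tN2y_5_18 : fN2y 5 18 = true := by decide +kernel
theorem tN2y_5_20 : fN2y 5 20 = true := by decide +kernel
theorem tN2y_5_24 : fN2y 5 24 = true := by decide +kernel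
theorem tN2y_6_3 : fN2y 6 3 = true := by decide +kernel
theorem tN2y_6_5 : fN2y 6 5 = true := by decide +kernel
theorem tN2y_6_6 : fN2y 6 6 = true := by decide +kernel
theorem tN2y_6_9 : fN2y 6 9 = true := by decide +kernel
theorem tN2y_6_10 : fN2y 6 10 = true := by decide +kernel
theorem tN2y_6_12 : fN2y 6 12 = true := by decide +kernel
theorem tN2y_6_17 : fN2y 6 17 = true := by decide +kernel
theorem tN2y_6_18 : fN2y 6 18 = true := by decide +kernel
theorem tN2y_6_20 : fN2y 6 20 = true := by decide +kernel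
theorem tN2y_6_24 : fN2y 6 24 = true := by decide +kernel
theorem tN2y_9_3 : fN2y 9 3 = true := by decide +kernel
theorem tN2y_9_5 : fN2y 9 5 = true := by decide +kernel
theorem tN2y_9_6 : fN2y 9 6 = true := by decide +kernel
theorem tN2y_9_9 : fN2y 9 9 = true := by decide +kernel
theorem tN2y_9_10 : fN2y 9 10 = true := by decide +kernel
theorem tN2y_9_12 : fN2y 9 12 = true := by decide +kernel
theorem tN2y_9_17 : fN2y 9 17 = true := by decide +kernel
theorem tN2y_9_18 : fN2y 9 18 = true := by decide +kernel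
theorem tN2y_9_20 : fN2y 9 20 = true := by decide +kernel
theorem tN2y_9_24 : fN2y 9 24 = true := by decide +kernel
theorem tN2y_10_3 : fN2y 10 3 = true := by decide +kernel
theorem tN2y_10_5 : fN2y 10 5 = true := by decide +kernel
theorem tN2y_10_6 : fN2y 10 6 = true := by decide +kernel
theorem tN2y_10_9 : fN2y 10 9 = true := by decide +kernel
theorem tN2y_10_10 : fN2y 10 10 = true := by decide +kernel
theorem tN2y_10_12 : fN2y 10 12 = true := by decide +kernel
theorem tN2y_10_17 : fN2y 10 17 = true := by decide +kernel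
theorem tN2y_10_18 : fN2y 10 18 = true := by decide +kernel
theorem tN2y_10_20 : fN2y 10 20 = true := by decide +kernel
theorem tN2y_10_24 : fN2y 10 24 = true := by decide +kernel
theorem tN2y_12_3 : fN2y 12 3 = true := by decide +kernel
theorem tN2y_12_5 : fN2y 12 5 = true := by decide +kernel
theorem tN2y_12_6 : fN2y 12 6 = true := by decide +kernel
theorem tN2y_12_9 : fN2y 12 9 = true := by decide +kernel
theorem tN2y_12_10 : fN2y 12 10 = true := by decide +kernel
theorem tN2y_12_12 : fN2y 12 12 = true := by decide +kernel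
theorem tN2y_12_17 : fN2y 12 17 = true := by decide +kernel
theorem tN2y_12_18 : fN2y 12 18 = true := by decide +kernel
theorem tN2y_12_20 : fN2y 12 20 = true := by decide +kernel
theorem tN2y_12_24 : fN2y 12 24 = true := by decide +kernel
theorem tN2y_17_3 : fN2y 17 3 = true := by decide +kernel
theorem tN2y_17_5 : fN2y 17 5 = true := by decide +kernel
theorem tN2y_17_6 : fN2y 17 6 = true := by decide +kernel
theorem tN2y_17_9 : fN2y 17 9 = true := by decide +kernel
theorem tN2y_17_10 : fN2y 17 10 = true := by decide +kernel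
theorem tN2y_17_12 : fN2y 17 12 = true := by decide +kernel
theorem tN2y_17_17 : fN2y 17 17 = true := by decide +kernel
theorem tN2y_17_18 : fN2y 17 18 = true := by decide +kernel
theorem tN2y_17_20 : fN2y 17 20 = true := by decide +kernel
theorem tN2y_17_24 : fN2y 17 24 = true := by decide +kernel
theorem tN2y_18_3 : fN2y 18 3 = true := by decide +kernel
theorem tN2y_18_5 : fN2y 18 5 = true := by decide +kernel
theorem tN2y_18_6 : fN2y 18 6 = true := by decide +kernel
theorem tN2y_18_9 : fN2y 18 9 = true := by decide +kernel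
theorem tN2y_18_10 : fN2y 18 10 = true := by decide +kernel
theorem tN2y_18_12 : fN2y 18 12 = true := by decide +kernel
theorem tN2y_18_17 : fN2y 18 17 = true := by decide +kernel
theorem tN2y_18_18 : fN2y 18 18 = true := by decide +kernel
theorem tN2y_18_20 : fN2y 18 20 = true := by decide +kernel
theorem tN2y_18_24 : fN2y 18 24 = true := by decide +kernel
theorem tN2y_20_3 : fN2y 20 3 = true := by decide +kernel
theorem tN2y_20_5 : fN2y 20 5 = true := by decide +kernel
theorem tN2y_20_6 : fN2y 20 6 = true := by decide +kernel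
theorem tN2y_20_9 : fN2y 20 9 = true := by decide +kernel
theorem tN2y_20_10 : fN2y 20 10 = true := by decide +kernel
theorem tN2y_20_12 : fN2y 20 12 = true := by decide +kernel
theorem tN2y_20_17 : fN2y 20 17 = true := by decide +kernel
theorem tN2y_20_18 : fN2y 20 18 = true := by decide +kernel
theorem tN2y_20_20 : fN2y 20 20 = true := by decide +kernel
theorem tN2y_20_24 : fN2y 20 24 = true := by decide +kernel
theorem tN2y_24_3 : fN2y 24 3 = true := by decide +kernel
theorem tN2y_24_5 : fN2y 24 5 = true := by decide +kernel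
theorem tN2y_24_6 : fN2y 24 6 = true := by decide +kernel
theorem tN2y_24_9 : fN2y 24 9 = true := by decide +kernel
theorem tN2y_24_10 : fN2y 24 10 = true := by decide +kernel
theorem tN2y_24_12 : fN2y 24 12 = true := by decide +kernel
theorem tN2y_24_17 : fN2y 24 17 = true := by decide +kernel
theorem tN2y_24_18 : fN2y 24 18 = true := by decide +kernel
theorem tN2y_24_20 : fN2y 24 20 = true := by decide +kernel
theorem tN2y_24_24 : fN2y 24 24 = true := by decide +kernel

theorem chkN2y' : (M2.all fun O1 => M2.all fun O5 => fN2y O1 O5) = true := by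
  simp only [M2, M2, List.all_cons, List.all_nil, Bool.and_true, Bool.and_self,
    tN2y_3_3, tN2y_3_5, tN2y_3_6, tN2y_3_9, tN2y_3_10, tN2y_3_12, tN2y_3_17, tN2y_3_18, 
    tN2y_3_20, tN2y_3_24, tN2y_5_3, tN2y_5_5, tN2y_5_6, tN2y_5_9, tN2y_5_10, tN2y_5_12, 
    tN2y_5_17, tN2y_5_18, tN2y_5_20, tN2y_5_24, tN2y_6_3, tN2y_6_5, tN2y_6_6, tN2y_6_9, 
    tN2y_6_10, tN2y_6_12, tN2y_6_17, tN2y_6_18, tN2y_6_20, tN2y_6_24, tN2y_9_3, tN2y_9_5, 
    tN2y_9_6, tN2y_9_9, tN2y_9_10, tN2y_9_12, tN2y_9_17, tN2y_9_18, tN2y_9_20, tN2y_9_24, 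
    tN2y_10_3, tN2y_10_5, tN2y_10_6, tN2y_10_9, tN2y_10_10, tN2y_10_12, tN2y_10_17, 
    tN2y_10_18, tN2y_10_20, tN2y_10_24, tN2y_12_3, tN2y_12_5, tN2y_12_6, tN2y_12_9, 
    tN2y_12_10, tN2y_12_12, tN2y_12_17, tN2y_12_18, tN2y_12_20, tN2y_12_24, tN2y_17_3, 
    tN2y_17_5, tN2y_17_6, tN2y_17_9, tN2y_17_10, tN2y_17_12, tN2y_17_17, tN2y_17_18, 
    tN2y_17_20, tN2y_17_24, tN2y_18_3, tN2y_18_5, tN2y_18_6, tN2y_18_9, tN2y_18_10, 
    tN2y_18_12, tN2y_18_17, tN2y_18_18, tN2y_18_20, tN2y_18_24, tN2y_20_3, tN2y_20_5, 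
    tN2y_20_6, tN2y_20_9, tN2y_20_10, tN2y_20_12, tN2y_20_17, tN2y_20_18, tN2y_20_20, 
    tN2y_20_24, tN2y_24_3, tN2y_24_5, tN2y_24_6, tN2y_24_9, tN2y_24_10, tN2y_24_12, 
    tN2y_24_17, tN2y_24_18, tN2y_24_20, tN2y_24_24]

theorem chkN2y : (M2.all fun O1 => M2.all fun O5 => M3.all fun A => M3.all fun A' =>
      anyB O1 fun a => anyB O5 fun e => anyB A fun y => anyB A' fun y' =>
        (!(Nat.beq y y')) && sdr (tR a e (sg y)) (tR e a (sg y'))) = true :=
  chkN2y'

end Pool.Agent.helper2.L9.J
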