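import Pool.Agent.helper2.L9.JK1
import Pool.Agent.helper2.L9.JK1R
import Pool.Agent.helper2.L9.JK2_5
import Pool.Agent.helper2.L9.JK2_9
import Pool.Agent.helper2.L9.JK2_10
import Pool.Agent.helper2.L9.JN3
import Pool.Agent.helper2.L9.JN2y
import Pool.Agent.helper2.L9.JN2
import Pool.Agent.helper2.L9.JN3x
import Pool.Agent.helper2.L9.JN3y

/-!
# The joint stage: finite lemmas N2, N2y, N3, N3x, N3y, K1, K1R, K2
-/

namespace Pool.Agent.helper2.L9.J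

open Pool.Agent.helper40.L9.J

/-- two real chords -/
theorem N2 {O1 O5 A A' : ℕ} (h1 : O1 ∈ M2) (h5 : O5 ∈ M2)
    (hd : ¬ (O1 = O5 ∧ O1 ∈ trio ∧ A = O1 ∧ A' = O1)) (hA : A ∈ M2) (hA' : A' ∈ M2) :
    ∃ a e, O1.testBit a = true ∧ O5.testBit e = true ∧
      sdr (uR a e A) (uR e a A') = true := by
  have h := List.all_eq_true.1 (List.all_eq_true.1 (List.all_eq_true.1
    (List.all_eq_true.1 chkN2 O1 h1) O5 h5) A hA) A' hA'
  rw [Bool.or_eq_true] at h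
  rcases h with h | h
  · exfalso
    apply hd
    simp only [Bool.and_eq_true, List.contains_iff_mem] at h
    exact ⟨Nat.eq_of_beq_eq_true h.1.1.1, h.1.1.2, Nat.eq_of_beq_eq_true h.1.2,
      Nat.eq_of_beq_eq_true h.2⟩
  · obtain ⟨a, ha, hb, h⟩ := anyB_iff.1 h
    obtain ⟨e, he, hf, h⟩ := anyB_iff.1 h
    refine ⟨a, e, hb, hf, ?_⟩
    rw [tR_eq ha he (lt_of_M2 hA), tR_eq he ha (lt_of_M2 hA')]
    exact h

/-- two real chords, edge `y y'` -/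
theorem N2y {O1 O5 A A' : ℕ} (h1 : O1 ∈ M2) (h5 : O5 ∈ M2) (hA : A ∈ M3) (hA' : A' ∈ M3) :
    ∃ a e y y', O1.testBit a = true ∧ O5.testBit e = true ∧ A.testBit y = true ∧
      A'.testBit y' = true ∧ y ≠ y' ∧ sdr (uR a e (sg y)) (uR e a (sg y')) = true := by
  have h := List.all_eq_true.1 (List.all_eq_true.1 (List.all_eq_true.1
    (List.all_eq_true.1 chkN2y O1 h1) O5 h5) A hA) A' hA'
  obtain ⟨a, ha, hb, h⟩ := anyB_iff.1 h
  obtain ⟨e, he, hf, h⟩ := anyB_iff.1 h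
  obtain ⟨y, hy, hy1, h⟩ := anyB_iff.1 h
  obtain ⟨y', hy', hy1', h⟩ := anyB_iff.1 h
  rw [Bool.and_eq_true] at h
  refine ⟨a, e, y, y', hb, hf, hy1, hy1', beq_false h.1, ?_⟩
  rw [tR_eq ha he (sg_lt hy), tR_eq he ha (sg_lt hy')]
  exact h.2

/-- real - virtual -/
theorem N3 {O1 O5 A B' : ℕ} {C' : ℕ → ℕ} (h1 : O1 ∈ M2) (h5 : O5 ∈ M2)
    (hd : ¬ (O1 = O5 ∧ O1 ∈ trio)) (hA : A ∈ M2) (hB' : B' ∈ M3) (hC' : ∀ e, C' e ∈ M2) :
    ∃ a e, O1.testBit a = true ∧ O5.testBit e = true ∧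
      sdr (uR a e A) (u4 a B' (C' e)) = true := by
  have h := List.all_eq_true.1 (List.all_eq_true.1 (List.all_eq_true.1
    (List.all_eq_true.1 chkN3 O1 h1) O5 h5) A hA) B' hB'
  rw [Bool.or_eq_true] at h
  rcases h with h | h
  · exfalso
    apply hd
    simp only [Bool.and_eq_true, List.contains_iff_mem] at h
    exact ⟨Nat.eq_of_beq_eq_true h.1, h.2⟩
  · obtain ⟨e, he, hf, h⟩ := anyB_iff.1 h
    obtain ⟨a, ha, hb, h⟩ := anyB_iff.1 (List.all_eq_true.1 h (C' e) (hC' e))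
    refine ⟨a, e, hb, hf, ?_⟩
    rw [tR_eq ha he (lt_of_M2 hA), t4_eq ha (lt_of_M3 hB') (lt_of_M2 (hC' e))]
    exact h

theorem N3x {O1 O5 A B' : ℕ} {C' : ℕ → ℕ} (h1 : O1 ∈ M2) (h5 : O5 ∈ M2)
    (hA : A ∈ M2) (hB' : B' ∈ M4) (hC' : ∀ e, C' e ∈ M2) :
    ∃ a e, O1.testBit a = true ∧ O5.testBit e = true ∧
      sdr (uR a e A) (u4 a (del B' e) (C' e)) = true := by
  have h := List.all_eq_true.1 (List.all_eq_true.1 (List.all_eq_true.1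
    (List.all_eq_true.1 chkN3x O1 h1) O5 h5) A hA) B' hB'
  obtain ⟨e, he, hf, h⟩ := anyB_iff.1 h
  obtain ⟨a, ha, hb, h⟩ := anyB_iff.1 (List.all_eq_true.1 h (C' e) (hC' e))
  refine ⟨a, e, hb, hf, ?_⟩
  rw [tR_eq ha he (lt_of_M2 hA), t4_eq ha (del_lt (lt_of_M4 hB')) (lt_of_M2 (hC' e))]
  exact h

/-- real - virtual, edge `y x'` -/
theorem N3y {O1 O5 A B' : ℕ} {C' : ℕ → ℕ} (h1 : O1 ∈ M2) (h5 : O5 ∈ M2)
    (hA : A ∈ M3) (hB' : B' ∈ M4) (hC' : ∀ e, C' e ∈ M2) :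
    ∃ a e y, O1.testBit a = true ∧ O5.testBit e = true ∧ A.testBit y = true ∧
      sdr (uR a e (sg y)) (u4 a (del B' y) (C' e)) = true := by
  have h := List.all_eq_true.1 (List.all_eq_true.1 (List.all_eq_true.1
    (List.all_eq_true.1 chkN3y O1 h1) O5 h5) A hA) B' hB'
  obtain ⟨e, he, hf, h⟩ := anyB_iff.1 h
  obtain ⟨a, ha, hb, h⟩ := anyB_iff.1 (List.all_eq_true.1 h (C' e) (hC' e))
  obtain ⟨y, hy, hy1, h⟩ := anyB_iff.1 h
  refine ⟨a, e, y, hb, hf, hy1, ?_⟩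
  rw [tR_eq ha he (sg_lt hy), t4_eq ha (del_lt (lt_of_M4 hB')) (lt_of_M2 (hC' e))]
  exact h

/-- edge `y x`, against W -/
theorem K1 {O A B L B' : ℕ} {C' : ℕ → ℕ} (h : O ∈ trio) (hA : A ∈ M3) (hB : B ∈ M4)
    (hL : L ∈ M3) (hB' : B' ∈ M3) (hC' : ∀ e, C' e ∈ M2) :
    ∃ a e y, O.testBit a = true ∧ O.testBit e = true ∧ A.testBit y = true ∧ y ≠ a ∧
      sdr (u4 e (del B y) (kk L y)) (u4 a B' (C' e)) = true := by
  have h := List.all_eq_true.1 (List.all_eq_true.1 (List.all_eq_true.1 (List.all_eq_true.1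
    (List.all_eq_true.1 chkK1 O h) A hA) B hB) L hL) B' hB'
  obtain ⟨e, he, hf, h⟩ := anyB_iff.1 h
  obtain ⟨a, ha, hb, h⟩ := anyB_iff.1 (List.all_eq_true.1 h (C' e) (hC' e))
  obtain ⟨y, hy, hy1, h⟩ := anyB_iff.1 h
  rw [Bool.and_eq_true] at h
  refine ⟨a, e, y, hb, hf, hy1, beq_false h.1, ?_⟩
  rw [t4_eq he (del_lt (lt_of_M4 hB)) (kk_lt (lt_of_M3 hL)),
    t4_eq ha (lt_of_M3 hB') (lt_of_M2 (hC' e))]
  exact h.2

/-- edge `y x`, against a real chord -/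
theorem K1R {O A B L A' : ℕ} (h : O ∈ trio) (hA : A ∈ M3) (hB : B ∈ M4)
    (hL : L ∈ M3) (hA' : A' ∈ M2) :
    ∃ a e y, O.testBit a = true ∧ O.testBit e = true ∧ A.testBit y = true ∧ y ≠ a ∧
      sdr (u4 e (del B y) (kk L y)) (uR e a A') = true := by
  have h := List.all_eq_true.1 (List.all_eq_true.1 (List.all_eq_true.1 (List.all_eq_true.1
    (List.all_eq_true.1 chkK1R O h) A hA) B hB) L hL) A' hA'
  obtain ⟨e, he, hf, h⟩ := anyB_iff.1 h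
  obtain ⟨a, ha, hb, h⟩ := anyB_iff.1 h
  obtain ⟨y, hy, hy1, h⟩ := anyB_iff.1 h
  rw [Bool.and_eq_true] at h
  refine ⟨a, e, y, hb, hf, hy1, beq_false h.1, ?_⟩
  rw [t4_eq he (del_lt (lt_of_M4 hB)) (kk_lt (lt_of_M3 hL)), tR_eq he ha (lt_of_M2 hA')]
  exact h.2

theorem chkK2 : (trio.all fun O => M3.all fun A => M3.all fun B => M3.all fun L =>
    M4.all fun B' => anyB O fun e => M2.all fun c => anyB O fun a => anyB A fun y =>
        (!(Nat.beq y a)) && sdr (t4 e B (kk L y)) (t4 a (del B' y) c)) = true := by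
  have h : (trio.all fun O => M3.all fun A => M3.all fun B => fK2 O A B) = true := by
    simp only [trio, List.all_cons, List.all_nil, Bool.and_true, Bool.and_self,
      chkK2_5, chkK2_9, chkK2_10]
  exact h

/-- edge `y x'` -/
theorem K2 {O A B L B' : ℕ} {C' : ℕ → ℕ} (h : O ∈ trio) (hA : A ∈ M3) (hB : B ∈ M3)
    (hL : L ∈ M3) (hB' : B' ∈ M4) (hC' : ∀ e, C' e ∈ M2) :
    ∃ a e y, O.testBit a = true ∧ O.testBit e = true ∧ A.testBit y = true ∧ y ≠ a ∧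
      sdr (u4 e B (kk L y)) (u4 a (del B' y) (C' e)) = true := by
  have h := List.all_eq_true.1 (List.all_eq_true.1 (List.all_eq_true.1 (List.all_eq_true.1
    (List.all_eq_true.1 chkK2 O h) A hA) B hB) L hL) B' hB'
  obtain ⟨e, he, hf, h⟩ := anyB_iff.1 h
  obtain ⟨a, ha, hb, h⟩ := anyB_iff.1 (List.all_eq_true.1 h (C' e) (hC' e))
  obtain ⟨y, hy, hy1, h⟩ := anyB_iff.1 h
  rw [Bool.and_eq_true] at h
  refine ⟨a, e, y, hb, hf, hy1, beq_false h.1, ?_⟩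
  rw [t4_eq he (lt_of_M3 hB) (kk_lt (lt_of_M3 hL)),
    t4_eq ha (del_lt (lt_of_M4 hB')) (lt_of_M2 (hC' e))]
  exact h.2

end Pool.Agent.helper2.L9.J
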