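import Pool.Agent.helper2.L9.JTab

/-!
# The joint stage: masks
-/

namespace Pool.Agent.helper2.L9.J

open Pool.Agent.helper40.L9.J

/-- some element of the mask `m` satisfies `f` -/
def anyB (m : ℕ) (f : ℕ → Bool) : Bool := R5.any fun i => m.testBit i && f i

theorem anyB_iff {m : ℕ} {f : ℕ → Bool} :
    anyB m f = true ↔ ∃ i ∈ R5, m.testBit i = true ∧ f i = true := by
  unfold anyB
  rw [List.any_eq_true]
  simp only [Bool.and_eq_true]

theorem beq_false {a b : ℕ} (h : (!(Nat.beq a b)) = true) : a ≠ b := by
  intro hab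
  subst hab
  simp at h

end Pool.Agent.helper2.L9.J
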